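import Mathlib
import Pool.Agent.Lib.H47E.Defs

/-! # H35LW, C2: truncated norms -/

namespace H35LW

open PowerSeries H47E Finset

/-- The truncated norm. -/
noncomputable def Nt (R : ℝ) (n : ℕ) (F : ℂ⟦X⟧) : ℝ := ∑ i ∈ range n, ‖coeff i F‖ * R ^ i

variable {R : ℝ}

theorem Nt_nonneg (hR : 0 ≤ R) (n : ℕ) (F : ℂ⟦X⟧) : 0 ≤ Nt R n F :=
  sum_nonneg fun _ _ => mul_nonneg (norm_nonneg _) (pow_nonneg hR _)

theorem Nt_add (hR : 0 ≤ R) (n : ℕ) (F G : ℂ⟦X⟧) : Nt R n (F + G) ≤ Nt R n F + Nt R n G := by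
  unfold Nt
  rw [← sum_add_distrib]
  refine sum_le_sum fun i _ => ?_
  rw [map_add, ← add_mul]
  exact mul_le_mul_of_nonneg_right (norm_add_le _ _) (pow_nonneg hR _)

theorem Nt_neg (n : ℕ) (F : ℂ⟦X⟧) : Nt R n (-F) = Nt R n F := by
  unfold Nt
  refine sum_congr rfl fun i _ => ?_
  rw [map_neg, norm_neg]

theorem Nt_sub (hR : 0 ≤ R) (n : ℕ) (F G : ℂ⟦X⟧) : Nt R n (F - G) ≤ Nt R n F + Nt R n G := by
  rw [sub_eq_add_neg, ← Nt_neg (R := R) n G]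
  exact Nt_add hR n F (-G)

theorem Nt_C (n : ℕ) (x : ℂ) : Nt R n (C x) ≤ ‖x‖ := by
  unfold Nt
  rcases n with _ | n
  · rw [range_zero, sum_empty]
    exact norm_nonneg _
  · rw [sum_range_succ']
    have h : ∀ i ∈ range n, ‖coeff (i + 1) (C x : ℂ⟦X⟧)‖ * R ^ (i + 1) = 0 := by
      intro i _
      rw [coeff_C, if_neg (Nat.succ_ne_zero i), norm_zero, zero_mul]
    rw [sum_congr rfl h, sum_const_zero, zero_add, pow_zero, mul_one, coeff_C, if_pos rfl]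

theorem Nt_one (n : ℕ) : Nt R n 1 ≤ 1 := by
  have h := Nt_C (R := R) n 1
  rw [map_one, norm_one] at h
  exact h

theorem Nt_ofNat (n : ℕ) (m : ℕ) : Nt R n (m : ℂ⟦X⟧) ≤ m := by
  have h := Nt_C (R := R) n (m : ℂ)
  rw [map_natCast, Complex.norm_natCast] at h
  exact h

theorem Nt_mul (hR : 0 ≤ R) (n : ℕ) (F G : ℂ⟦X⟧) : Nt R n (F * G) ≤ Nt R n F * Nt R n G := by
  unfold Nt
  set f : ℕ → ℝ := fun i => ‖coeff i F‖ * R ^ i with hf
  set g : ℕ → ℝ := fun i => ‖coeff i G‖ * R ^ i with hg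
  have hf0 : ∀ i, 0 ≤ f i := fun i => mul_nonneg (norm_nonneg _) (pow_nonneg hR _)
  have hg0 : ∀ i, 0 ≤ g i := fun i => mul_nonneg (norm_nonneg _) (pow_nonneg hR _)
  have h1 : ∑ i ∈ range n, ‖coeff i (F * G)‖ * R ^ i ≤ ∑ i ∈ range n, ∑ x ∈ antidiagonal i, f x.1 * g x.2 := by
    refine sum_le_sum fun i _ => ?_
    rw [coeff_mul]
    calc ‖∑ x ∈ antidiagonal i, coeff x.1 F * coeff x.2 G‖ * R ^ i
        ≤ (∑ x ∈ antidiagonal i, ‖coeff x.1 F * coeff x.2 G‖) * R ^ i :=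
          mul_le_mul_of_nonneg_right (norm_sum_le _ _) (pow_nonneg hR _)
      _ = ∑ x ∈ antidiagonal i, f x.1 * g x.2 := by
          rw [sum_mul]
          refine sum_congr rfl fun x hx => ?_
          rw [hf, hg]
          simp only
          rw [norm_mul, ← HasAntidiagonal.mem_antidiagonal.1 hx, pow_add]
          ring
  refine h1.trans ?_
  have h2 : ∑ i ∈ range n, ∑ x ∈ antidiagonal i, f x.1 * g x.2 =
      ∑ x ∈ (range n ×ˢ range n).filter (fun x => x.1 + x.2 < n), f x.1 * g x.2 := by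
    rw [← sum_fiberwise_of_maps_to (s := (range n ×ˢ range n).filter (fun x => x.1 + x.2 < n)) (t := range n)
      (g := fun x => x.1 + x.2) (fun x hx => mem_range.2 (mem_filter.1 hx).2)]
    refine sum_congr rfl fun i hi => ?_
    refine sum_congr ?_ fun _ _ => rfl
    ext ⟨p, q⟩
    simp only [mem_filter, mem_product, mem_range, HasAntidiagonal.mem_antidiagonal]
    have hi' := mem_range.1 hi
    constructor
    · intro h
      omega
    · intro h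
      omega
  rw [h2, sum_mul_sum, ← sum_product']
  exact sum_le_sum_of_subset_of_nonneg (filter_subset _ _) fun x _ _ => mul_nonneg (hf0 _) (hg0 _)

theorem Nt_pow (hR : 0 ≤ R) (n : ℕ) (F : ℂ⟦X⟧) (j : ℕ) : Nt R n (F ^ j) ≤ Nt R n F ^ j := by
  induction j with
  | zero =>
    rw [pow_zero, pow_zero]
    exact Nt_one n
  | succ j ih =>
    rw [pow_succ, pow_succ]
    exact (Nt_mul hR n _ _).trans (mul_le_mul_of_nonneg_right ih (Nt_nonneg hR n F))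

/-- The truncated norm of a primitive. -/
theorem Nt_d (hR : 0 ≤ R) (n : ℕ) (F : ℂ⟦X⟧) : Nt R (n + 1) F ≤ ‖constantCoeff F‖ + R * Nt R n (d⁄dX ℂ F) := by
  unfold Nt
  rw [sum_range_succ', pow_zero, mul_one, coeff_zero_eq_constantCoeff_apply, add_comm, mul_sum]
  refine add_le_add le_rfl (sum_le_sum fun i _ => ?_)
  rw [coeff_derivative, norm_mul, pow_succ]
  have h1 : (1 : ℝ) ≤ ‖((i : ℂ) + 1)‖ := by
    have h2 : ((i : ℂ) + 1) = ((i + 1 : ℕ) : ℂ) := by push_cast; ring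
    rw [h2, Complex.norm_natCast]
    exact_mod_cast Nat.succ_le_succ (Nat.zero_le i)
  have h3 : 0 ≤ ‖coeff (i + 1) F‖ * R ^ i * R := mul_nonneg (mul_nonneg (norm_nonneg _) (pow_nonneg hR _)) hR
  nlinarith [mul_le_mul_of_nonneg_left h1 h3]

/-- The truncated norms are bounded. -/
def Bd (R : ℝ) (F : ℂ⟦X⟧) (B : ℝ) : Prop := ∀ n, Nt R n F ≤ B

theorem Bd.nonneg {F : ℂ⟦X⟧} {B : ℝ} (h : Bd R F B) : 0 ≤ B := by
  have h1 := h 0
  unfold Nt at h1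
  rw [range_zero, sum_empty] at h1
  exact h1

theorem Bd.mono {F : ℂ⟦X⟧} {A B : ℝ} (h : Bd R F A) (hAB : A ≤ B) : Bd R F B := fun n => (h n).trans hAB

theorem Bd.add {F G : ℂ⟦X⟧} {A B : ℝ} (hR : 0 ≤ R) (hF : Bd R F A) (hG : Bd R G B) : Bd R (F + G) (A + B) := fun n =>
  (Nt_add hR n F G).trans (add_le_add (hF n) (hG n))

theorem Bd.sub {F G : ℂ⟦X⟧} {A B : ℝ} (hR : 0 ≤ R) (hF : Bd R F A) (hG : Bd R G B) : Bd R (F - G) (A + B) := fun n =>
  (Nt_sub hR n F G).trans (add_le_add (hF n) (hG n))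

theorem Bd.neg {F : ℂ⟦X⟧} {A : ℝ} (hF : Bd R F A) : Bd R (-F) A := fun n => (Nt_neg n F).le.trans (hF n)

theorem Bd.mul {F G : ℂ⟦X⟧} {A B : ℝ} (hR : 0 ≤ R) (hF : Bd R F A) (hG : Bd R G B) : Bd R (F * G) (A * B) := fun n =>
  (Nt_mul hR n F G).trans (mul_le_mul (hF n) (hG n) (Nt_nonneg hR n G) hF.nonneg)

theorem Bd.pow {F : ℂ⟦X⟧} {A : ℝ} (hR : 0 ≤ R) (hF : Bd R F A) (j : ℕ) : Bd R (F ^ j) (A ^ j) := fun n =>
  (Nt_pow hR n F j).trans (pow_le_pow_left₀ (Nt_nonneg hR n F) (hF n) j)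

theorem Bd.C (x : ℂ) : Bd R (PowerSeries.C x) ‖x‖ := fun n => Nt_C n x

theorem Bd.nat (m : ℕ) : Bd R (m : ℂ⟦X⟧) m := fun n => Nt_ofNat n m

theorem Bd.one : Bd R 1 1 := fun n => Nt_one n

theorem Bd.coeff {F : ℂ⟦X⟧} {B : ℝ} (hR : 0 ≤ R) (h : Bd R F B) (i : ℕ) : ‖PowerSeries.coeff i F‖ * R ^ i ≤ B := by
  refine le_trans ?_ (h (i + 1))
  unfold Nt
  exact single_le_sum (f := fun i => ‖PowerSeries.coeff i F‖ * R ^ i)
    (fun j _ => mul_nonneg (norm_nonneg _) (pow_nonneg hR _)) (mem_range.2 (Nat.lt_succ_self i))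

theorem Nt_rescale (n : ℕ) (F : ℂ⟦X⟧) : Nt R n (rescale 2 F) = Nt (2 * R) n F := by
  unfold Nt
  refine sum_congr rfl fun i _ => ?_
  rw [coeff_rescale, norm_mul, norm_pow, mul_pow]
  have h2 : ‖(2 : ℂ)‖ = 2 := by simp
  rw [h2]
  ring

theorem Bd.dbl {F : ℂ⟦X⟧} {B : ℝ} (h : Bd R (rescale 2 F) B) : Bd (2 * R) F B := fun n => by
  rw [← Nt_rescale]
  exact h n

theorem Bd.summable {F : ℂ⟦X⟧} {B : ℝ} (hR : 0 ≤ R) (h : Bd R F B) : Summable fun i => ‖PowerSeries.coeff i F‖ * R ^ i :=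
  summable_of_sum_range_le (fun _ => mul_nonneg (norm_nonneg _) (pow_nonneg hR _)) h

end H35LW
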