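import Mathlib
import Pool.Agent.Lib.H47E.Defs

/-! # H35LW, C1: existence and uniqueness of the formal series -/

namespace H35LW

open PowerSeries H47E

variable {k : Type} [Field k] [CharZero k]

/-- Integration. -/
noncomputable def integ (f : k⟦X⟧) : k⟦X⟧ := PowerSeries.mk fun i => if i = 0 then 0 else coeff (i - 1) f / (i : k)

theorem d_integ (f : k⟦X⟧) : d⁄dX k (integ f) = f := by
  ext i
  rw [coeff_derivative]
  unfold integ
  rw [coeff_mk, if_neg (Nat.succ_ne_zero i), Nat.add_sub_cancel]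
  have h : ((i : k) + 1) ≠ 0 := by exact_mod_cast Nat.succ_ne_zero i
  push_cast
  field_simp

omit [CharZero k] in
theorem const_integ (f : k⟦X⟧) : constantCoeff (integ f) = 0 := by
  rw [← coeff_zero_eq_constantCoeff_apply]
  unfold integ
  rw [coeff_mk, if_pos rfl]

/-- X^n divides the difference if the derivative is divisible by X^(n-1) and the constant term is 0. -/
theorem dvd_up {f : k⟦X⟧} {n : ℕ} (h : X ^ n ∣ d⁄dX k f) (h0 : constantCoeff f = 0) : X ^ (n + 1) ∣ f := by
  rw [X_pow_dvd_iff] at h ⊢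
  intro m hm
  rcases m with _ | m
  · rw [coeff_zero_eq_constantCoeff_apply, h0]
  · have h1 := h m (by omega)
    rw [coeff_derivative] at h1
    have h2 : ((m : k) + 1) ≠ 0 := by exact_mod_cast Nat.succ_ne_zero m
    exact (mul_eq_zero.1 h1).resolve_right h2

omit [CharZero k] in
theorem eq_of_dvd {f g : k⟦X⟧} (h : ∀ n, X ^ n ∣ f - g) : f = g := by
  ext i
  have h1 := (X_pow_dvd_iff.1 (h (i + 1))) i (Nat.lt_succ_self i)
  rw [map_sub, sub_eq_zero] at h1
  exact h1

variable {ι : Type}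

/-- The first n coefficients of Φ y depend only on the first n coefficients of y. -/
def Caus (Φ : (ι → k⟦X⟧) → (ι → k⟦X⟧)) : Prop :=
  ∀ (n : ℕ) (y z : ι → k⟦X⟧), (∀ l, X ^ n ∣ y l - z l) → ∀ l, X ^ n ∣ Φ y l - Φ z l

theorem ode_unique {Φ : (ι → k⟦X⟧) → (ι → k⟦X⟧)} (hΦ : Caus Φ) {y z : ι → k⟦X⟧} (hy : ∀ l, d⁄dX k (y l) = Φ y l)
    (hz : ∀ l, d⁄dX k (z l) = Φ z l) (h0 : ∀ l, constantCoeff (y l) = constantCoeff (z l)) : y = z := by
  have key : ∀ n, ∀ l, X ^ n ∣ y l - z l := by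
    intro n
    induction n with
    | zero => intro l; rw [pow_zero]; exact one_dvd _
    | succ n ih =>
      intro l
      refine dvd_up ?_ ?_
      · rw [map_sub, hy, hz]
        exact hΦ n y z ih l
      · rw [map_sub, h0, sub_self]
  funext l
  exact eq_of_dvd fun n => key n l

theorem ode_exists {Φ : (ι → k⟦X⟧) → (ι → k⟦X⟧)} (hΦ : Caus Φ) (y₀ : ι → k) :
    ∃ y : ι → k⟦X⟧, (∀ l, d⁄dX k (y l) = Φ y l) ∧ ∀ l, constantCoeff (y l) = y₀ l := by
  set T : (ι → k⟦X⟧) → (ι → k⟦X⟧) := fun y l => C (y₀ l) + integ (Φ y l) with hT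
  have hTd : ∀ y l, d⁄dX k (T y l) = Φ y l := by
    intro y l
    rw [hT]
    simp only
    rw [map_add, d_integ, derivative_C, zero_add]
  have hTc : ∀ y l, constantCoeff (T y l) = y₀ l := by
    intro y l
    rw [hT]
    simp only
    rw [map_add, const_integ, add_zero, constantCoeff_C]
  have hTn : ∀ n y z, (∀ l, X ^ n ∣ y l - z l) → ∀ l, X ^ (n + 1) ∣ T y l - T z l := by
    intro n y z h l
    refine dvd_up ?_ ?_
    · rw [map_sub, hTd, hTd]
      exact hΦ n y z h l
    · rw [map_sub, hTc, hTc, sub_self]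
  set z : ℕ → ι → k⟦X⟧ := fun n => T^[n] 0 with hz
  have hzs : ∀ n, z (n + 1) = T (z n) := by
    intro n
    rw [hz]
    simp only
    rw [Function.iterate_succ_apply']
  have hstep : ∀ n l, X ^ n ∣ z (n + 1) l - z n l := by
    intro n
    induction n with
    | zero => intro l; rw [pow_zero]; exact one_dvd _
    | succ n ih =>
      intro l
      rw [hzs (n + 1), hzs n]
      exact hTn n _ _ (fun l => by rw [← hzs n]; exact ih l) l
  have hco : ∀ i m l, i < m → coeff i (z m l) = coeff i (z (i + 1) l) := by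
    intro i m l him
    induction m with
    | zero => omega
    | succ m ih =>
      by_cases h : i = m
      · rw [h]
      · have h1 := (X_pow_dvd_iff.1 (hstep m l)) i (by omega)
        rw [map_sub, sub_eq_zero] at h1
        rw [h1]
        exact ih (by omega)
  set y : ι → k⟦X⟧ := fun l => PowerSeries.mk fun i => coeff i (z (i + 1) l) with hy
  have hyz : ∀ n l, X ^ n ∣ y l - z n l := by
    intro n l
    rw [X_pow_dvd_iff]
    intro m hm
    rw [map_sub, hco m n l hm, hy]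
    simp only
    rw [coeff_mk, sub_self]
  have hfix : ∀ l, y l = T y l := by
    intro l
    refine eq_of_dvd fun n => ?_
    have h1 := hyz (n + 1) l
    have h2 := hTn n y (z n) (hyz n) l
    rw [← hzs n] at h2
    have h3 := dvd_sub h1 h2
    have h4 : y l - z (n + 1) l - (T y l - z (n + 1) l) = y l - T y l := by ring
    rw [h4] at h3
    exact dvd_trans (pow_dvd_pow X (Nat.le_succ n)) h3
  exact ⟨y, fun l => by rw [hfix l, hTd], fun l => by rw [hfix l, hTc]⟩

/-! ## The system -/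

variable (a c : k)

/-- The vector field. -/
noncomputable def vf (y : Fin 4 → k⟦X⟧) : Fin 4 → k⟦X⟧ :=
  ![1 - C a * y 0 ^ 2 - 2 * C c * y 0 ^ 2 * y 1, 2 * y 0 * (1 + C a * y 1 + C c * y 1 ^ 2), -(C c * y 1),
    y 3 * (y 2 + C a * y 0 + 2 * C c * y 0 * y 1)]

omit [CharZero k] in
theorem dvd_iff_mk {n : ℕ} {f g : k⟦X⟧} : X ^ n ∣ f - g ↔
    Ideal.Quotient.mk (Ideal.span {(X ^ n : k⟦X⟧)}) f = Ideal.Quotient.mk (Ideal.span {(X ^ n : k⟦X⟧)}) g := by
  rw [Ideal.Quotient.eq, Ideal.mem_span_singleton]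

omit [CharZero k] in
theorem vf_caus : Caus (vf a c) := by
  intro n y z h l
  simp only [dvd_iff_mk] at h ⊢
  fin_cases l <;> simp [vf, h]

/-- The same with a factor 2. -/
theorem vf2_caus : Caus (fun y l => 2 * vf a c y l) := by
  intro n y z h l
  have h1 := vf_caus a c n y z h l
  have h2 : 2 * vf a c y l - 2 * vf a c z l = 2 * (vf a c y l - vf a c z l) := by ring
  rw [h2]
  exact dvd_mul_of_dvd_right h1 2

variable {a c}

/-- v = t^2 (1 + a v + c v^2) from the derivatives. -/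
theorem hv_of {t v : k⟦X⟧} (ht : d⁄dX k t = 1 - C a * t ^ 2 - 2 * C c * t ^ 2 * v)
    (hv : d⁄dX k v = 2 * t * (1 + C a * v + C c * v ^ 2)) (t0 : constantCoeff t = 0) (v0 : constantCoeff v = 0) :
    v = t ^ 2 * (1 + C a * v + C c * v ^ 2) := by
  have h : d⁄dX k v = d⁄dX k (t ^ 2 * (1 + C a * v + C c * v ^ 2)) := by
    have e1 : d⁄dX k (t ^ 2) = 2 * t * d⁄dX k t := by
      rw [pow_two, Derivation.leibniz, smul_eq_mul]
      ring
    have e2 : d⁄dX k (v ^ 2) = 2 * v * d⁄dX k v := by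
      rw [pow_two, Derivation.leibniz, smul_eq_mul]
      ring
    rw [Derivation.leibniz, map_add, map_add, Derivation.leibniz, Derivation.leibniz, e1, e2, derivative_C, derivative_C,
      Derivation.map_one_eq_zero]
    simp only [smul_eq_mul]
    rw [hv, ht]
    ring
  refine derivative.ext h ?_
  rw [v0, map_mul, map_pow, t0]
  simp

/-- The derivative of v. -/
theorem dv_of {t v : k⟦X⟧} (ht : d⁄dX k t = 1 - C a * t ^ 2 - 2 * C c * t ^ 2 * v)
    (hv : v = t ^ 2 * (1 + C a * v + C c * v ^ 2)) (t0 : constantCoeff t = 0) :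
    d⁄dX k v = 2 * t * (1 + C a * v + C c * v ^ 2) := by
  have e1 : d⁄dX k (t ^ 2) = 2 * t * d⁄dX k t := by
    rw [pow_two, Derivation.leibniz, smul_eq_mul]
    ring
  have e2 : d⁄dX k (v ^ 2) = 2 * v * d⁄dX k v := by
    rw [pow_two, Derivation.leibniz, smul_eq_mul]
    ring
  have h : d⁄dX k v = 2 * t * d⁄dX k t * (1 + C a * v + C c * v ^ 2) + t ^ 2 * (C a * d⁄dX k v + C c * (2 * v * d⁄dX k v)) := by
    have h1 : d⁄dX k v = d⁄dX k (t ^ 2 * (1 + C a * v + C c * v ^ 2)) := congrArg _ hv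
    rw [Derivation.leibniz, map_add, map_add, Derivation.leibniz, Derivation.leibniz, e1, e2, derivative_C, derivative_C,
      Derivation.map_one_eq_zero] at h1
    simp only [smul_eq_mul] at h1
    linear_combination h1
  have hne : d⁄dX k t ≠ 0 := by
    intro h0
    have h1 := congrArg constantCoeff (ht.symm.trans h0)
    simp [t0] at h1
  refine mul_left_cancel₀ hne ?_
  rw [ht] at h ⊢
  linear_combination h

/-- A solution gives the structure. -/
noncomputable def serOf (y : Fin 4 → k⟦X⟧) (hy : ∀ l, d⁄dX k (y l) = vf a c y l)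
    (h0 : ∀ l, constantCoeff (y l) = (![0, 0, 0, 1] : Fin 4 → k) l) : Ser k a c where
  t := y 0
  v := y 1
  g := y 2
  rho := y 3
  t0 := h0 0
  g0 := h0 2
  rho0 := h0 3
  hv := hv_of (hy 0) (hy 1) (h0 0) (h0 1)
  ht := hy 0
  hg := hy 2
  hrho := hy 3

/-- The vector of the series. -/
def vec (S : Ser k a c) : Fin 4 → k⟦X⟧ := ![S.t, S.v, S.g, S.rho]

omit [CharZero k] in
theorem v0 (S : Ser k a c) : constantCoeff S.v = 0 := by
  rw [S.hv, map_mul, map_pow, S.t0]
  simp

theorem vec_ode (S : Ser k a c) : ∀ l, d⁄dX k (vec S l) = vf a c (vec S) l := by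
  intro l
  fin_cases l
  · exact S.ht
  · exact dv_of S.ht S.hv S.t0
  · exact S.hg
  · exact S.hrho

omit [CharZero k] in
theorem vec_0 (S : Ser k a c) : ∀ l, constantCoeff (vec S l) = (![0, 0, 0, 1] : Fin 4 → k) l := by
  intro l
  fin_cases l
  · exact S.t0
  · exact v0 S
  · exact S.g0
  · exact S.rho0

variable (a c) in
theorem ser_exists : Nonempty (Ser k a c) := by
  obtain ⟨y, h1, h2⟩ := ode_exists (vf_caus a c) (![0, 0, 0, 1] : Fin 4 → k)
  exact ⟨serOf y h1 h2⟩

theorem ser_unique (S S' : Ser k a c) : S.t = S'.t ∧ S.v = S'.v ∧ S.g = S'.g ∧ S.rho = S'.rho := by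
  have h := ode_unique (vf_caus a c) (vec_ode S) (vec_ode S') fun l => by rw [vec_0, vec_0]
  exact ⟨congrFun h 0, congrFun h 1, congrFun h 2, congrFun h 3⟩

/-- Uniqueness of t and v alone. -/
theorem tv_unique (S : Ser k a c) {t v : k⟦X⟧} (t0 : constantCoeff t = 0) (v0 : constantCoeff v = 0)
    (ht : d⁄dX k t = 1 - C a * t ^ 2 - 2 * C c * t ^ 2 * v) (hv : d⁄dX k v = 2 * t * (1 + C a * v + C c * v ^ 2)) :
    S.t = t ∧ S.v = v := by
  obtain ⟨y, h1, h2⟩ := ode_exists (ι := Fin 4) (k := k) (Φ := fun y => ![1 - C a * t ^ 2 - 2 * C c * t ^ 2 * v,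
    2 * t * (1 + C a * v + C c * v ^ 2), -(C c * v), y 3 * (y 2 + C a * t + 2 * C c * t * v)]) (by
      intro n y z h l
      simp only [dvd_iff_mk] at h ⊢
      fin_cases l <;> simp [h]) (![0, 0, 0, 1] : Fin 4 → k)
  have e0 : y 0 = t := derivative.ext ((h1 0).trans ht.symm) ((h2 0).trans t0.symm)
  have e1 : y 1 = v := derivative.ext ((h1 1).trans hv.symm) ((h2 1).trans v0.symm)
  have h3 : ∀ l, d⁄dX k (y l) = vf a c y l := by
    intro l
    fin_cases l
    · show d⁄dX k (y 0) = 1 - C a * y 0 ^ 2 - 2 * C c * y 0 ^ 2 * y 1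
      rw [e0, e1]
      exact ht
    · show d⁄dX k (y 1) = 2 * y 0 * (1 + C a * y 1 + C c * y 1 ^ 2)
      rw [e0, e1]
      exact hv
    · show d⁄dX k (y 2) = -(C c * y 1)
      rw [e1]
      exact h1 2
    · show d⁄dX k (y 3) = y 3 * (y 2 + C a * y 0 + 2 * C c * y 0 * y 1)
      rw [e0, e1]
      exact h1 3
  have h := ser_unique S (serOf y h3 h2)
  exact ⟨h.1.trans e0, h.2.1.trans e1⟩

end H35LW
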