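import Mathlib

/-! # H35LW, C3A: algebraic identities for the doubling formulas -/

namespace H35LW

variable {L : Type} [Field L]

theorem alg_T (t v a c E Q P : L) (hE : E ≠ 0) (hQ : Q ≠ 0) (hP : P ≠ 0) (eE : E = 1 + a * v + c * v ^ 2) (eQ : Q = 1 - c * v ^ 2)
    (eP : P = 1 + 2 * a * v + 6 * c * v ^ 2 + 2 * a * c * v ^ 3 + c ^ 2 * v ^ 4) (hs : t ^ 2 = v / E) :
    2 * (((1 - a * t ^ 2 - 2 * c * t ^ 2 * v) * E * Q + t * (((a + 2 * c * v) * (2 * t * E)) * Q + E * (-(2 * c * v) * (2 * t * E)))) *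
        P⁻¹ - t * E * Q * (P⁻¹ ^ 2 * ((2 * a + 12 * c * v + 6 * a * c * v ^ 2 + 4 * c ^ 2 * v ^ 3) * (2 * t * E)))) =
    2 * (1 - a * (2 * t * E * Q * P⁻¹) ^ 2 - 2 * c * (2 * t * E * Q * P⁻¹) ^ 2 * (4 * v * E * Q⁻¹ ^ 2)) := by
  have e1 : ∀ s : L, s = v / E →
      2 * (((1 - a * s - 2 * c * s * v) * E * Q + s * (((a + 2 * c * v) * (2 * E)) * Q + E * (-(2 * c * v) * (2 * E)))) *
        P⁻¹ - s * E * Q * (P⁻¹ ^ 2 * ((2 * a + 12 * c * v + 6 * a * c * v ^ 2 + 4 * c ^ 2 * v ^ 3) * (2 * E)))) =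
    2 * (1 - a * (4 * s * E ^ 2 * Q ^ 2 * P⁻¹ ^ 2) - 2 * c * (4 * s * E ^ 2 * Q ^ 2 * P⁻¹ ^ 2) * (4 * v * E * Q⁻¹ ^ 2)) := by
    rintro s rfl
    field_simp
    rw [eE, eQ, eP]
    ring
  have e2 := e1 (t ^ 2) hs
  linear_combination e2

theorem alg_V (t v a c E Q P : L) (hQ : Q ≠ 0) (hP : P ≠ 0) (eE : E = 1 + a * v + c * v ^ 2) (eQ : Q = 1 - c * v ^ 2)
    (eP : P = 1 + 2 * a * v + 6 * c * v ^ 2 + 2 * a * c * v ^ 3 + c ^ 2 * v ^ 4) :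
    4 * (((2 * t * E) * E + v * ((a + 2 * c * v) * (2 * t * E))) * Q⁻¹ ^ 2 -
      v * E * (2 * Q⁻¹ * (Q⁻¹ ^ 2 * (-(2 * c * v) * (2 * t * E))))) =
    2 * (2 * (2 * t * E * Q * P⁻¹) * (1 + a * (4 * v * E * Q⁻¹ ^ 2) + c * (4 * v * E * Q⁻¹ ^ 2) ^ 2)) := by
  field_simp
  rw [eE, eQ, eP]
  ring

theorem alg_G (t v a c E Q : L) (hE : E ≠ 0) (hQ : Q ≠ 0) (eE : E = 1 + a * v + c * v ^ 2) (eQ : Q = 1 - c * v ^ 2)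
    (hs : t ^ 2 = v / E) :
    2 * (-(c * v)) - 2 * c * ((((1 - a * t ^ 2 - 2 * c * t ^ 2 * v) * v + t * (2 * t * E)) * E +
      t * v * ((a + 2 * c * v) * (2 * t * E))) * Q⁻¹ - t * v * E * (Q⁻¹ ^ 2 * (-(2 * c * v) * (2 * t * E)))) =
    2 * (-(c * (4 * v * E * Q⁻¹ ^ 2))) := by
  have e1 : ∀ s : L, s = v / E →
    2 * (-(c * v)) - 2 * c * ((((1 - a * s - 2 * c * s * v) * v + s * (2 * E)) * E +
      s * v * ((a + 2 * c * v) * (2 * E))) * Q⁻¹ - s * v * E * (Q⁻¹ ^ 2 * (-(2 * c * v) * (2 * E)))) =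
    2 * (-(c * (4 * v * E * Q⁻¹ ^ 2))) := by
    rintro s rfl
    field_simp
    rw [eE, eQ]
    ring
  have e2 := e1 (t ^ 2) hs
  linear_combination e2

theorem alg_R (t v g r a c E Q P : L) (hE : E ≠ 0) (hQ : Q ≠ 0) (hP : P ≠ 0) (eE : E = 1 + a * v + c * v ^ 2) (eQ : Q = 1 - c * v ^ 2)
    (eP : P = 1 + 2 * a * v + 6 * c * v ^ 2 + 2 * a * c * v ^ 3 + c ^ 2 * v ^ 4) :
    (4 * r ^ 3 * (r * (g + a * t + 2 * c * t * v)) * P +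
      r ^ 4 * ((2 * a + 12 * c * v + 6 * a * c * v ^ 2 + 4 * c ^ 2 * v ^ 3) * (2 * t * E))) * (E⁻¹ ^ 2 * Q⁻¹) -
      r ^ 4 * P * (2 * E⁻¹ * (E⁻¹ ^ 2 * ((a + 2 * c * v) * (2 * t * E))) * Q⁻¹ +
        E⁻¹ ^ 2 * (Q⁻¹ ^ 2 * (-(2 * c * v) * (2 * t * E)))) =
    2 * (r ^ 4 * P * (E⁻¹ ^ 2 * Q⁻¹) * ((2 * g - 2 * c * (t * v * E * Q⁻¹)) + a * (2 * t * E * Q * P⁻¹) +
        2 * c * (2 * t * E * Q * P⁻¹) * (4 * v * E * Q⁻¹ ^ 2))) := by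
  field_simp
  rw [eE, eQ, eP]
  ring

end H35LW
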