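import Mathlib
import Pool.Agent.Lib.H35LW.C1
import Pool.Agent.Lib.H35LW.C3A

/-! # H35LW, C3: the doubling formulas -/

namespace H35LW

open PowerSeries H47E

section gen

variable {k : Type} [Field k]

theorem d_mul (f g : k⟦X⟧) : d⁄dX k (f * g) = f * d⁄dX k g + d⁄dX k f * g := by
  rw [Derivation.leibniz]
  simp only [smul_eq_mul]
  ring

theorem d_sq (f : k⟦X⟧) : d⁄dX k (f ^ 2) = 2 * f * d⁄dX k f := by
  rw [pow_two, d_mul]
  ring

theorem d_cube (f : k⟦X⟧) : d⁄dX k (f ^ 3) = 3 * f ^ 2 * d⁄dX k f := by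
  rw [pow_succ, d_mul, d_sq]
  ring

theorem d_four (f : k⟦X⟧) : d⁄dX k (f ^ 4) = 4 * f ^ 3 * d⁄dX k f := by
  rw [pow_succ, d_mul, d_cube]
  ring

theorem d_nat (n : ℕ) : d⁄dX k (n : k⟦X⟧) = 0 := (d⁄dX k).map_natCast n

theorem d_2 : d⁄dX k (2 : k⟦X⟧) = 0 := by simpa using d_nat (k := k) 2

theorem d_4 : d⁄dX k (4 : k⟦X⟧) = 0 := by simpa using d_nat (k := k) 4

theorem d_6 : d⁄dX k (6 : k⟦X⟧) = 0 := by simpa using d_nat (k := k) 6

theorem d_1 : d⁄dX k (1 : k⟦X⟧) = 0 := (d⁄dX k).map_one_eq_zero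

theorem d_C (x : k) : d⁄dX k (C x) = 0 := derivative_C

theorem map_inv' {L : Type} [Field L] (i : k⟦X⟧ →+* L) (u : k⟦X⟧) (hu : constantCoeff u ≠ 0) : i u⁻¹ = (i u)⁻¹ := by
  refine eq_inv_of_mul_eq_one_left ?_
  rw [← map_mul, PowerSeries.inv_mul_cancel u hu, map_one]

theorem sc_eq (p : k) (f : k⟦X⟧) : sc p f = rescale p f := by
  ext i
  rw [coeff_rescale]
  unfold sc
  rw [coeff_mk]

theorem d_rescale (p : k) (f : k⟦X⟧) : d⁄dX k (rescale p f) = C p * rescale p (d⁄dX k f) := by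
  ext i
  rw [coeff_derivative, coeff_rescale, coeff_C_mul, coeff_rescale, coeff_derivative, pow_succ]
  ring

theorem const_rescale (p : k) (f : k⟦X⟧) : constantCoeff (rescale p f) = constantCoeff f := by
  rw [← coeff_zero_eq_constantCoeff_apply, coeff_rescale, pow_zero, one_mul, coeff_zero_eq_constantCoeff_apply]

theorem rescale_C' (p x : k) : rescale p (C x) = C x := by
  ext i
  rw [coeff_rescale, coeff_C]
  split_ifs with h
  · rw [h, pow_zero, one_mul]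
  · rw [mul_zero]

end gen

variable {k : Type} [Field k] {a c : k} (S : Ser k a c)

/-- 1 + a v + c v^2 -/
noncomputable def sE : k⟦X⟧ := 1 + C a * S.v + C c * S.v ^ 2

/-- 1 - c v^2 -/
noncomputable def sQ : k⟦X⟧ := 1 - C c * S.v ^ 2

/-- v^4 P4(1/v) -/
noncomputable def sP : k⟦X⟧ := 1 + 2 * C a * S.v + 6 * C c * S.v ^ 2 + 2 * C a * C c * S.v ^ 3 + C c ^ 2 * S.v ^ 4

theorem sE_c : constantCoeff (sE S) = 1 := by
  unfold sE
  simp [v0 S]

theorem sQ_c : constantCoeff (sQ S) = 1 := by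
  unfold sQ
  simp [v0 S]

theorem sP_c : constantCoeff (sP S) = 1 := by
  unfold sP
  simp [v0 S]

theorem hvE : S.v = S.t ^ 2 * sE S := S.hv

theorem hxiE : S.xi * sE S = 1 := by
  unfold Ser.xi sE
  have h := S.hv
  linear_combination (C a + C c * S.v) * h

variable [CharZero k]

theorem dvE : d⁄dX k S.v = 2 * S.t * sE S := dv_of S.ht S.hv S.t0

theorem dE : d⁄dX k (sE S) = (C a + 2 * C c * S.v) * (2 * S.t * sE S) := by
  have h := dvE S
  have e : d⁄dX k (sE S) = C a * d⁄dX k S.v + C c * (2 * S.v * d⁄dX k S.v) := by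
    show d⁄dX k (1 + C a * S.v + C c * S.v ^ 2) = _
    rw [map_add, map_add, d_mul, d_mul, d_sq, d_C, d_C, d_1]
    ring
  rw [e, h]
  ring

theorem dQ : d⁄dX k (sQ S) = -(2 * C c * S.v) * (2 * S.t * sE S) := by
  have h := dvE S
  have e : d⁄dX k (sQ S) = -(C c * (2 * S.v * d⁄dX k S.v)) := by
    show d⁄dX k (1 - C c * S.v ^ 2) = _
    rw [map_sub, d_mul, d_sq, d_C, d_1]
    ring
  rw [e, h]
  ring

theorem dP : d⁄dX k (sP S) = (2 * C a + 12 * C c * S.v + 6 * C a * C c * S.v ^ 2 + 4 * C c ^ 2 * S.v ^ 3) * (2 * S.t * sE S) := by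
  have h := dvE S
  have e : d⁄dX k (sP S) = 2 * C a * d⁄dX k S.v + 6 * C c * (2 * S.v * d⁄dX k S.v) + 2 * C a * C c * (3 * S.v ^ 2 * d⁄dX k S.v) +
      C c ^ 2 * (4 * S.v ^ 3 * d⁄dX k S.v) := by
    show d⁄dX k (1 + 2 * C a * S.v + 6 * C c * S.v ^ 2 + 2 * C a * C c * S.v ^ 3 + C c ^ 2 * S.v ^ 4) = _
    rw [map_add, map_add, map_add, map_add, d_mul, d_mul (6 * C c), d_mul (2 * C a * C c), d_mul (C c ^ 2), d_mul 2 (C a), d_mul 6,
      d_mul (2 * C a), d_mul 2 (C a), d_sq, d_sq, d_cube, d_four, d_C, d_C, d_1, d_2, d_6]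
    ring
  rw [e, h]
  ring

/-- t(2u) -/
noncomputable def T2 : k⟦X⟧ := 2 * S.t * sE S * sQ S * (sP S)⁻¹

/-- v(2u) -/
noncomputable def V2 : k⟦X⟧ := 4 * S.v * sE S * (sQ S)⁻¹ ^ 2

/-- g(2u) -/
noncomputable def G2 : k⟦X⟧ := 2 * S.g - 2 * C c * (S.t * S.v * sE S * (sQ S)⁻¹)

/-- rho(2u) -/
noncomputable def R2 : k⟦X⟧ := S.rho ^ 4 * sP S * ((sE S)⁻¹ ^ 2 * (sQ S)⁻¹)

theorem dT2 : d⁄dX k (T2 S) = 2 * (((1 - C a * S.t ^ 2 - 2 * C c * S.t ^ 2 * S.v) * sE S * sQ S +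
    S.t * (((C a + 2 * C c * S.v) * (2 * S.t * sE S)) * sQ S + sE S * (-(2 * C c * S.v) * (2 * S.t * sE S)))) *
      (sP S)⁻¹ - S.t * sE S * sQ S * ((sP S)⁻¹ ^ 2 *
      ((2 * C a + 12 * C c * S.v + 6 * C a * C c * S.v ^ 2 + 4 * C c ^ 2 * S.v ^ 3) * (2 * S.t * sE S)))) := by
  unfold T2
  rw [d_mul, d_mul (2 * S.t * sE S), d_mul (2 * S.t), d_mul 2, d_2, derivative_inv', dE, dQ, dP, S.ht]
  ring

theorem dV2 : d⁄dX k (V2 S) = 4 * (((2 * S.t * sE S) * sE S + S.v * ((C a + 2 * C c * S.v) * (2 * S.t * sE S))) * (sQ S)⁻¹ ^ 2 -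
      S.v * sE S * (2 * (sQ S)⁻¹ * ((sQ S)⁻¹ ^ 2 * (-(2 * C c * S.v) * (2 * S.t * sE S))))) := by
  unfold V2
  rw [d_mul, d_mul (4 * S.v), d_mul 4, d_4, d_sq, derivative_inv', dE, dQ, dvE]
  ring

theorem dG2 : d⁄dX k (G2 S) = 2 * (-(C c * S.v)) - 2 * C c * ((((1 - C a * S.t ^ 2 - 2 * C c * S.t ^ 2 * S.v) * S.v +
      S.t * (2 * S.t * sE S)) * sE S + S.t * S.v * ((C a + 2 * C c * S.v) * (2 * S.t * sE S))) * (sQ S)⁻¹ -
      S.t * S.v * sE S * ((sQ S)⁻¹ ^ 2 * (-(2 * C c * S.v) * (2 * S.t * sE S)))) := by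
  unfold G2
  rw [map_sub, d_mul 2, d_mul (2 * C c), d_mul 2, d_mul (S.t * S.v * sE S), d_mul (S.t * S.v), d_mul S.t, d_2, d_C, derivative_inv',
    dE, dQ, dvE, S.ht, S.hg]
  ring

theorem dR2 : d⁄dX k (R2 S) = (4 * S.rho ^ 3 * (S.rho * (S.g + C a * S.t + 2 * C c * S.t * S.v)) * sP S +
      S.rho ^ 4 * ((2 * C a + 12 * C c * S.v + 6 * C a * C c * S.v ^ 2 + 4 * C c ^ 2 * S.v ^ 3) * (2 * S.t * sE S))) *
        ((sE S)⁻¹ ^ 2 * (sQ S)⁻¹) -
      S.rho ^ 4 * sP S * (2 * (sE S)⁻¹ * ((sE S)⁻¹ ^ 2 * ((C a + 2 * C c * S.v) * (2 * S.t * sE S))) * (sQ S)⁻¹ +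
        (sE S)⁻¹ ^ 2 * ((sQ S)⁻¹ ^ 2 * (-(2 * C c * S.v) * (2 * S.t * sE S)))) := by
  unfold R2
  rw [d_mul, d_mul (S.rho ^ 4), d_mul ((sE S)⁻¹ ^ 2), d_four, d_sq, derivative_inv', derivative_inv', dE, dQ, dP, S.hrho]
  ring

/-- The embedding into the fraction field. -/
noncomputable def emb (k : Type) [Field k] : k⟦X⟧ →+* FractionRing k⟦X⟧ := algebraMap _ _

omit [CharZero k] in
theorem emb_inj : Function.Injective (emb k) := IsFractionRing.injective k⟦X⟧ (FractionRing k⟦X⟧)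

omit [CharZero k] in
theorem emb_ne {u : k⟦X⟧} (hu : constantCoeff u = 1) : emb k u ≠ 0 := by
  intro h
  rw [← map_zero (emb k)] at h
  have h1 := emb_inj h
  rw [h1, map_zero] at hu
  exact zero_ne_one hu

omit [CharZero k] in
theorem emb_inv {u : k⟦X⟧} (hu : constantCoeff u = 1) : emb k u⁻¹ = (emb k u)⁻¹ :=
  map_inv' _ u (by rw [hu]; exact one_ne_zero)

omit [CharZero k] in
theorem eE : emb k (sE S) = 1 + emb k (C a) * emb k S.v + emb k (C c) * emb k S.v ^ 2 := by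
  unfold sE
  simp only [map_add, map_mul, map_pow, map_one]

omit [CharZero k] in
theorem eQ : emb k (sQ S) = 1 - emb k (C c) * emb k S.v ^ 2 := by
  unfold sQ
  simp only [map_sub, map_mul, map_pow, map_one]

omit [CharZero k] in
theorem eP : emb k (sP S) = 1 + 2 * emb k (C a) * emb k S.v + 6 * emb k (C c) * emb k S.v ^ 2 +
    2 * emb k (C a) * emb k (C c) * emb k S.v ^ 3 + emb k (C c) ^ 2 * emb k S.v ^ 4 := by
  unfold sP
  simp only [map_add, map_mul, map_pow, map_one, map_ofNat]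

omit [CharZero k] in
theorem es : emb k S.t ^ 2 = emb k S.v / emb k (sE S) := by
  rw [eq_div_iff (emb_ne (sE_c S)), ← map_pow, ← map_mul, ← hvE]

theorem hT2 : d⁄dX k (T2 S) = 2 * (1 - C a * T2 S ^ 2 - 2 * C c * T2 S ^ 2 * V2 S) := by
  apply emb_inj
  rw [dT2]
  unfold T2 V2
  simp only [map_mul, map_add, map_sub, map_pow, map_one, map_ofNat, map_neg, emb_inv (sP_c S), emb_inv (sQ_c S)]
  exact alg_T _ _ _ _ _ _ _ (emb_ne (sE_c S)) (emb_ne (sQ_c S)) (emb_ne (sP_c S)) (eE S) (eQ S) (eP S) (es S)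

theorem hV2 : d⁄dX k (V2 S) = 2 * (2 * T2 S * (1 + C a * V2 S + C c * V2 S ^ 2)) := by
  apply emb_inj
  rw [dV2]
  unfold T2 V2
  simp only [map_mul, map_add, map_sub, map_pow, map_one, map_ofNat, map_neg, emb_inv (sP_c S), emb_inv (sQ_c S)]
  exact alg_V _ _ _ _ _ _ _ (emb_ne (sQ_c S)) (emb_ne (sP_c S)) (eE S) (eQ S) (eP S)

theorem hG2 : d⁄dX k (G2 S) = 2 * (-(C c * V2 S)) := by
  apply emb_inj
  rw [dG2]
  unfold V2
  simp only [map_mul, map_add, map_sub, map_pow, map_one, map_ofNat, map_neg, emb_inv (sP_c S), emb_inv (sQ_c S)]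
  exact alg_G _ _ _ _ _ _ (emb_ne (sE_c S)) (emb_ne (sQ_c S)) (eE S) (eQ S) (es S)

theorem hR2 : d⁄dX k (R2 S) = 2 * (R2 S * (G2 S + C a * T2 S + 2 * C c * T2 S * V2 S)) := by
  apply emb_inj
  rw [dR2]
  unfold T2 V2 G2 R2
  simp only [map_mul, map_add, map_sub, map_pow, map_one, map_ofNat, map_neg, emb_inv (sP_c S), emb_inv (sQ_c S), emb_inv (sE_c S)]
  exact alg_R _ _ _ _ _ _ _ _ _ (emb_ne (sE_c S)) (emb_ne (sQ_c S)) (emb_ne (sP_c S)) (eE S) (eQ S) (eP S)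

/-- The doubling formulas for t, v, g, rho. -/
theorem dbl_all : rescale 2 S.t = T2 S ∧ rescale 2 S.v = V2 S ∧ rescale 2 S.g = G2 S ∧ rescale 2 S.rho = R2 S := by
  have hC2 : (C (2 : k) : k⟦X⟧) = 2 := map_ofNat C 2
  have h1 : ∀ l, d⁄dX k ((![rescale 2 S.t, rescale 2 S.v, rescale 2 S.g, rescale 2 S.rho] : Fin 4 → k⟦X⟧) l) =
      2 * vf a c ![rescale 2 S.t, rescale 2 S.v, rescale 2 S.g, rescale 2 S.rho] l := by
    intro l
    fin_cases l
    · show d⁄dX k (rescale 2 S.t) = 2 * (1 - C a * rescale 2 S.t ^ 2 - 2 * C c * rescale 2 S.t ^ 2 * rescale 2 S.v)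
      rw [d_rescale, S.ht, hC2]
      simp only [map_mul, map_sub, map_pow, map_one, map_ofNat, rescale_C']
    · show d⁄dX k (rescale 2 S.v) = 2 * (2 * rescale 2 S.t * (1 + C a * rescale 2 S.v + C c * rescale 2 S.v ^ 2))
      rw [d_rescale, dvE, hC2]
      unfold sE
      simp only [map_mul, map_add, map_pow, map_one, map_ofNat, rescale_C']
    · show d⁄dX k (rescale 2 S.g) = 2 * (-(C c * rescale 2 S.v))
      rw [d_rescale, S.hg, hC2]
      simp only [map_mul, map_neg, rescale_C']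
    · show d⁄dX k (rescale 2 S.rho) = 2 * (rescale 2 S.rho * (rescale 2 S.g + C a * rescale 2 S.t + 2 * C c * rescale 2 S.t * rescale 2 S.v))
      rw [d_rescale, S.hrho, hC2]
      simp only [map_mul, map_add, map_ofNat, rescale_C']
  have h2 : ∀ l, d⁄dX k ((![T2 S, V2 S, G2 S, R2 S] : Fin 4 → k⟦X⟧) l) = 2 * vf a c ![T2 S, V2 S, G2 S, R2 S] l := by
    intro l
    fin_cases l
    · exact hT2 S
    · exact hV2 S
    · exact hG2 S
    · exact hR2 S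
  have h3 : ∀ l, constantCoeff ((![rescale 2 S.t, rescale 2 S.v, rescale 2 S.g, rescale 2 S.rho] : Fin 4 → k⟦X⟧) l) =
      constantCoeff ((![T2 S, V2 S, G2 S, R2 S] : Fin 4 → k⟦X⟧) l) := by
    intro l
    fin_cases l
    · show constantCoeff (rescale 2 S.t) = constantCoeff (T2 S)
      rw [const_rescale, S.t0]
      unfold T2
      simp [S.t0]
    · show constantCoeff (rescale 2 S.v) = constantCoeff (V2 S)
      rw [const_rescale, v0]
      unfold V2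
      simp [v0 S]
    · show constantCoeff (rescale 2 S.g) = constantCoeff (G2 S)
      rw [const_rescale, S.g0]
      unfold G2
      simp [S.g0, S.t0]
    · show constantCoeff (rescale 2 S.rho) = constantCoeff (R2 S)
      rw [const_rescale, S.rho0]
      unfold R2
      simp [S.rho0, sP_c S, sE_c S, sQ_c S]
  have h := ode_unique (vf2_caus a c) h1 h2 h3
  exact ⟨congrFun h 0, congrFun h 1, congrFun h 2, congrFun h 3⟩

end H35LW
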