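import Mathlib
import Pool.Agent.Lib.H35LW.C3

/-! # H35LW, C3B: the doubling formulas for U, X, Y, Z -/

namespace H35LW

open PowerSeries H47E

section alg

variable {L : Type} [Field L]

theorem alg_E (v a c E Q P : L) (hQ : Q ≠ 0) (eE : E = 1 + a * v + c * v ^ 2) (eQ : Q = 1 - c * v ^ 2)
    (eP : P = 1 + 2 * a * v + 6 * c * v ^ 2 + 2 * a * c * v ^ 3 + c ^ 2 * v ^ 4) :
    1 + a * (4 * v * E * Q⁻¹ ^ 2) + c * (4 * v * E * Q⁻¹ ^ 2) ^ 2 = P ^ 2 * Q⁻¹ ^ 4 := by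
  field_simp
  rw [eE, eQ, eP]
  ring

theorem alg_Ud (t r E Q P : L) (hE : E ≠ 0) (hQ : Q ≠ 0) (hP : P ≠ 0) :
    r ^ 4 * P * (E⁻¹ ^ 2 * Q⁻¹) * (2 * t * E * Q * P⁻¹) = -2 * (-(r ^ 3 * E⁻¹)) * (r * t) := by
  field_simp

theorem alg_Xd (t v r c E Q P : L) (hE : E ≠ 0) (hQ : Q ≠ 0) (hP : P ≠ 0) (eQ : Q = 1 - c * v ^ 2) (hs : t ^ 2 = v / E) :
    (r ^ 4 * P * (E⁻¹ ^ 2 * Q⁻¹)) ^ 2 * (P ^ 2 * Q⁻¹ ^ 4)⁻¹ = ((r ^ 2 * E⁻¹) ^ 2 - c * (r * t) ^ 4) ^ 2 := by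
  have h4 : t ^ 4 = v ^ 2 / E ^ 2 := by
    have : t ^ 4 = (t ^ 2) ^ 2 := by ring
    rw [this, hs, div_pow]
  rw [mul_pow r t 4, h4]
  field_simp
  rw [eQ]

theorem alg_Yd (t v r a c E Q P : L) (hE : E ≠ 0) (hQ : Q ≠ 0) (hP : P ≠ 0) (eQ : Q = 1 - c * v ^ 2)
    (eP : P = 1 + 2 * a * v + 6 * c * v ^ 2 + 2 * a * c * v ^ 3 + c ^ 2 * v ^ 4) (hs : t ^ 2 = v / E) :
    -((r ^ 4 * P * (E⁻¹ ^ 2 * Q⁻¹)) ^ 3 * (P ^ 2 * Q⁻¹ ^ 4)⁻¹) =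
      -((r ^ 2 * E⁻¹) ^ 2 - c * (r * t) ^ 4) * ((r ^ 2 * E⁻¹) ^ 4 + 2 * a * (r ^ 2 * E⁻¹) ^ 3 * (r * t) ^ 2 +
        6 * c * (r ^ 2 * E⁻¹) ^ 2 * (r * t) ^ 4 + 2 * a * c * (r ^ 2 * E⁻¹) * (r * t) ^ 6 + c ^ 2 * (r * t) ^ 8) := by
  have h4 : t ^ 4 = v ^ 2 / E ^ 2 := by
    have : t ^ 4 = (t ^ 2) ^ 2 := by ring
    rw [this, hs, div_pow]
  have h6 : t ^ 6 = v ^ 3 / E ^ 3 := by
    have : t ^ 6 = (t ^ 2) ^ 3 := by ring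
    rw [this, hs, div_pow]
  have h8 : t ^ 8 = v ^ 4 / E ^ 4 := by
    have : t ^ 8 = (t ^ 2) ^ 4 := by ring
    rw [this, hs, div_pow]
  rw [mul_pow r t 4, mul_pow r t 2, mul_pow r t 6, mul_pow r t 8, h4, h6, h8, hs]
  have e1 : -((r ^ 4 * P * (E⁻¹ ^ 2 * Q⁻¹)) ^ 3 * (P ^ 2 * Q⁻¹ ^ 4)⁻¹) = -(r ^ 12 * P * E⁻¹ ^ 6 * Q) := by
    field_simp
  rw [e1]
  field_simp
  rw [eQ, eP]
  ring

theorem alg_Zd (t v g r a c E Q P : L) (hE : E ≠ 0) (hQ : Q ≠ 0) (hP : P ≠ 0) (eE : E = 1 + a * v + c * v ^ 2) (eQ : Q = 1 - c * v ^ 2)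
    (eP : P = 1 + 2 * a * v + 6 * c * v ^ 2 + 2 * a * c * v ^ 3 + c ^ 2 * v ^ 4) (hs : t ^ 2 = v / E) :
    r ^ 4 * P * (E⁻¹ ^ 2 * Q⁻¹) * (1 + 2 * t * E * Q * P⁻¹ * (2 * g - 2 * c * (t * v * E * Q⁻¹))) =
      -4 * (-(r ^ 3 * E⁻¹)) * (r * (1 + t * g)) - (3 * (r ^ 2 * E⁻¹) ^ 2 + 2 * a * (r ^ 2 * E⁻¹) * (r * t) ^ 2 + c * (r * t) ^ 4) := by
  have h4 : t ^ 4 = v ^ 2 / E ^ 2 := by
    have : t ^ 4 = (t ^ 2) ^ 2 := by ring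
    rw [this, hs, div_pow]
  have e1 : r ^ 4 * P * (E⁻¹ ^ 2 * Q⁻¹) * (1 + 2 * t * E * Q * P⁻¹ * (2 * g - 2 * c * (t * v * E * Q⁻¹))) =
      r ^ 4 * P * E⁻¹ ^ 2 * Q⁻¹ + 4 * r ^ 4 * E⁻¹ * t * g - 4 * c * r ^ 4 * t ^ 2 * v * Q⁻¹ := by
    field_simp
    ring
  rw [e1, mul_pow r t 2, mul_pow r t 4, h4, hs]
  have e2 : r ^ 4 * P * E⁻¹ ^ 2 * Q⁻¹ - 4 * c * r ^ 4 * (v / E) * v * Q⁻¹ =
      4 * r ^ 4 * E⁻¹ - (3 * (r ^ 2 * E⁻¹) ^ 2 + 2 * a * (r ^ 2 * E⁻¹) * (r ^ 2 * (v / E)) + c * (r ^ 4 * (v ^ 2 / E ^ 2))) := by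
    field_simp
    rw [eE, eQ, eP]
    ring
  linear_combination e2

end alg

variable {k : Type} [Field k] {a c : k} (S : Ser k a c)

theorem emb_xi : emb k S.xi = (emb k (sE S))⁻¹ := by
  refine eq_inv_of_mul_eq_one_left ?_
  rw [← map_mul, hxiE, map_one]

variable [CharZero k]

theorem emb_xi2 : emb k (rescale 2 S.xi) = (emb k (sP S) ^ 2 * (emb k (sQ S))⁻¹ ^ 4)⁻¹ := by
  obtain ⟨h1, h2, h3, h4⟩ := dbl_all S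
  refine eq_inv_of_mul_eq_one_left ?_
  have e := congrArg (fun f => emb k (rescale 2 f)) (hxiE S)
  simp only [map_mul, map_one] at e
  have e2 : emb k (rescale 2 (sE S)) = emb k (sP S) ^ 2 * (emb k (sQ S))⁻¹ ^ 4 := by
    have e3 : rescale 2 (sE S) = 1 + C a * V2 S + C c * V2 S ^ 2 := by
      rw [← h2]
      unfold sE
      simp only [map_mul, map_add, map_pow, map_one, rescale_C']
    rw [e3]
    unfold V2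
    simp only [map_mul, map_add, map_pow, map_one, map_ofNat, emb_inv (sQ_c S)]
    exact alg_E _ _ _ _ _ _ (emb_ne (sQ_c S)) (eE S) (eQ S) (eP S)
  rw [← e2]
  exact e

/-- U(2u) -/
theorem dbl_U : rescale 2 S.U = -2 * S.Y * S.U := by
  obtain ⟨h1, h2, h3, h4⟩ := dbl_all S
  apply emb_inj
  unfold Ser.U Ser.Y
  rw [map_mul (rescale 2), h1, h4]
  unfold T2 R2
  simp only [map_mul, map_pow, map_ofNat, map_neg, emb_inv (sP_c S), emb_inv (sQ_c S), emb_inv (sE_c S), emb_xi]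
  exact alg_Ud _ _ _ _ _ (emb_ne (sE_c S)) (emb_ne (sQ_c S)) (emb_ne (sP_c S))

/-- X(2u) -/
theorem dbl_X : rescale 2 S.X = (S.X ^ 2 - C c * S.U ^ 4) ^ 2 := by
  obtain ⟨h1, h2, h3, h4⟩ := dbl_all S
  apply emb_inj
  unfold Ser.X Ser.U
  rw [map_mul (rescale 2), map_pow (rescale 2), h4, map_mul (emb k), emb_xi2]
  unfold R2
  simp only [map_mul, map_pow, map_sub, emb_inv (sQ_c S), emb_inv (sE_c S), emb_xi]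
  exact alg_Xd _ _ _ _ _ _ _ (emb_ne (sE_c S)) (emb_ne (sQ_c S)) (emb_ne (sP_c S)) (eQ S) (es S)

/-- Y(2u) -/
theorem dbl_Y : rescale 2 S.Y = -(S.X ^ 2 - C c * S.U ^ 4) * (S.X ^ 4 + 2 * C a * S.X ^ 3 * S.U ^ 2 +
    6 * C c * S.X ^ 2 * S.U ^ 4 + 2 * C a * C c * S.X * S.U ^ 6 + C c ^ 2 * S.U ^ 8) := by
  obtain ⟨h1, h2, h3, h4⟩ := dbl_all S
  apply emb_inj
  unfold Ser.X Ser.U Ser.Y
  rw [map_neg (rescale 2), map_mul (rescale 2), map_pow (rescale 2), h4, map_neg (emb k), map_mul (emb k), emb_xi2]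
  unfold R2
  simp only [map_mul, map_pow, map_sub, map_add, map_neg, map_ofNat, emb_inv (sQ_c S), emb_inv (sE_c S), emb_xi]
  exact alg_Yd _ _ _ _ _ _ _ _ (emb_ne (sE_c S)) (emb_ne (sQ_c S)) (emb_ne (sP_c S)) (eQ S) (eP S) (es S)

/-- Z(2u) -/
theorem dbl_Z : rescale 2 S.Z = -4 * S.Y * S.Z - (3 * S.X ^ 2 + 2 * C a * S.X * S.U ^ 2 + C c * S.U ^ 4) := by
  obtain ⟨h1, h2, h3, h4⟩ := dbl_all S
  apply emb_inj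
  unfold Ser.X Ser.U Ser.Y Ser.Z
  rw [map_mul (rescale 2), map_add (rescale 2), map_mul (rescale 2) S.t, map_one (rescale 2), h1, h3, h4]
  unfold R2 T2 G2
  simp only [map_mul, map_pow, map_sub, map_add, map_neg, map_ofNat, map_one, emb_inv (sP_c S), emb_inv (sQ_c S), emb_inv (sE_c S),
    emb_xi]
  exact alg_Zd _ _ _ _ _ _ _ _ _ (emb_ne (sE_c S)) (emb_ne (sQ_c S)) (emb_ne (sP_c S)) (eE S) (eQ S) (eP S) (es S)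

end H35LW
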