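import Mathlib
import Pool.Agent.Lib.H35LW.C2
import Pool.Agent.Lib.H35LW.C3B

/-! # H35LW, C4: the growth of U, X, Y, Z -/

namespace H35LW

open PowerSeries H47E Finset

variable {a c : ℂ} (S : Ser ℂ a c)

/-- A positive radius of convergence. -/
theorem rad0 : ∃ R : ℝ, 0 < R ∧ R ≤ 1 ∧ Bd R S.t 2 ∧ Bd R S.v 2 ∧ Bd R S.g 2 ∧ Bd R S.rho 2 := by
  set K : ℝ := 4 + 8 * ‖a‖ + 16 * ‖c‖ with hK
  have ha := norm_nonneg a
  have hc := norm_nonneg c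
  have hKp : 0 < K := by positivity
  have hR : (0 : ℝ) ≤ 1 / K := by positivity
  have h2 : ∀ n, Nt (1 / K) n (2 : ℂ⟦X⟧) ≤ 2 := fun n => by
    have := Nt_ofNat (R := 1 / K) n 2
    push_cast at this
    exact this
  have key : ∀ n, Nt (1 / K) n S.t ≤ 2 ∧ Nt (1 / K) n S.v ≤ 2 ∧ Nt (1 / K) n S.g ≤ 2 ∧ Nt (1 / K) n S.rho ≤ 2 := by
    intro n
    induction n with
    | zero =>
      unfold Nt
      simp only [range_zero, sum_empty]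
      norm_num
    | succ n ih =>
      obtain ⟨it, iv, ig, ir⟩ := ih
      have nt := Nt_nonneg hR n S.t
      have nv := Nt_nonneg hR n S.v
      have ng := Nt_nonneg hR n S.g
      have nr := Nt_nonneg hR n S.rho
      have ca := Nt_C (R := 1 / K) n a
      have cc := Nt_C (R := 1 / K) n c
      have na := Nt_nonneg hR n (C a : ℂ⟦X⟧)
      have nc := Nt_nonneg hR n (C c : ℂ⟦X⟧)
      have n2 := Nt_nonneg hR n (2 : ℂ⟦X⟧)
      -- t^2, v^2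
      have t2 : Nt (1 / K) n (S.t ^ 2) ≤ 4 := (Nt_pow hR n S.t 2).trans (by nlinarith)
      have v2 : Nt (1 / K) n (S.v ^ 2) ≤ 4 := (Nt_pow hR n S.v 2).trans (by nlinarith)
      have at2 : Nt (1 / K) n (C a * S.t ^ 2) ≤ ‖a‖ * 4 := (Nt_mul hR n _ _).trans (mul_le_mul ca t2 (Nt_nonneg hR n _) ha)
      have c2 : Nt (1 / K) n (2 * C c) ≤ 2 * ‖c‖ := (Nt_mul hR n _ _).trans (mul_le_mul (h2 n) cc nc (by norm_num))
      have c2t2 : Nt (1 / K) n (2 * C c * S.t ^ 2) ≤ 2 * ‖c‖ * 4 :=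
        (Nt_mul hR n _ _).trans (mul_le_mul c2 t2 (Nt_nonneg hR n _) (by positivity))
      have c2t2v : Nt (1 / K) n (2 * C c * S.t ^ 2 * S.v) ≤ 2 * ‖c‖ * 4 * 2 :=
        (Nt_mul hR n _ _).trans (mul_le_mul c2t2 iv nv (by positivity))
      have dt : Nt (1 / K) n (d⁄dX ℂ S.t) ≤ K := by
        rw [S.ht]
        refine (Nt_sub hR n _ _).trans ?_
        have h3 := Nt_sub hR n 1 (C a * S.t ^ 2)
        have h4 := Nt_one (R := 1 / K) n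
        rw [hK]
        linarith
      have dv : Nt (1 / K) n (d⁄dX ℂ S.v) ≤ K := by
        rw [dv_of S.ht S.hv S.t0]
        have e1 : Nt (1 / K) n (2 * S.t) ≤ 4 := (Nt_mul hR n _ _).trans (by nlinarith [h2 n])
        have e2 : Nt (1 / K) n (C a * S.v) ≤ ‖a‖ * 2 := (Nt_mul hR n _ _).trans (mul_le_mul ca iv nv ha)
        have e3 : Nt (1 / K) n (C c * S.v ^ 2) ≤ ‖c‖ * 4 := (Nt_mul hR n _ _).trans (mul_le_mul cc v2 (Nt_nonneg hR n _) hc)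
        have e4 : Nt (1 / K) n (1 + C a * S.v + C c * S.v ^ 2) ≤ 1 + ‖a‖ * 2 + ‖c‖ * 4 := by
          refine (Nt_add hR n _ _).trans ?_
          have h3 := Nt_add hR n 1 (C a * S.v)
          have h4 := Nt_one (R := 1 / K) n
          linarith
        refine (Nt_mul hR n _ _).trans ((mul_le_mul e1 e4 (Nt_nonneg hR n _) (by norm_num)).trans ?_)
        rw [hK]
        linarith
      have dg : Nt (1 / K) n (d⁄dX ℂ S.g) ≤ K := by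
        rw [S.hg, Nt_neg]
        refine ((Nt_mul hR n _ _).trans (mul_le_mul cc iv nv hc)).trans ?_
        rw [hK]
        linarith
      have dr : Nt (1 / K) n (d⁄dX ℂ S.rho) ≤ K := by
        rw [S.hrho]
        have e1 : Nt (1 / K) n (C a * S.t) ≤ ‖a‖ * 2 := (Nt_mul hR n _ _).trans (mul_le_mul ca it nt ha)
        have e2 : Nt (1 / K) n (2 * C c * S.t) ≤ 2 * ‖c‖ * 2 := (Nt_mul hR n _ _).trans (mul_le_mul c2 it nt (by positivity))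
        have e3 : Nt (1 / K) n (2 * C c * S.t * S.v) ≤ 2 * ‖c‖ * 2 * 2 :=
          (Nt_mul hR n _ _).trans (mul_le_mul e2 iv nv (by positivity))
        have e4 : Nt (1 / K) n (S.g + C a * S.t + 2 * C c * S.t * S.v) ≤ 2 + ‖a‖ * 2 + 2 * ‖c‖ * 2 * 2 := by
          refine (Nt_add hR n _ _).trans ?_
          have h3 := Nt_add hR n S.g (C a * S.t)
          linarith
        refine (Nt_mul hR n _ _).trans ((mul_le_mul ir e4 (Nt_nonneg hR n _) (by norm_num)).trans ?_)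
        rw [hK]
        linarith
      have fin : ∀ {F : ℂ⟦X⟧}, Nt (1 / K) n (d⁄dX ℂ F) ≤ K → ‖constantCoeff F‖ ≤ 1 → Nt (1 / K) (n + 1) F ≤ 2 := by
        intro F hF h0
        have h3 := Nt_d hR n F
        have h4 : 1 / K * Nt (1 / K) n (d⁄dX ℂ F) ≤ 1 := by
          refine (mul_le_mul_of_nonneg_left hF hR).trans ?_
          rw [one_div, inv_mul_cancel₀ hKp.ne']
        linarith
      refine ⟨fin dt ?_, fin dv ?_, fin dg ?_, fin dr ?_⟩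
      · rw [S.t0]; simp
      · rw [v0 S]; simp
      · rw [S.g0]; simp
      · rw [S.rho0]; simp
  refine ⟨1 / K, by positivity, ?_, fun n => (key n).1, fun n => (key n).2.1, fun n => (key n).2.2.1, fun n => (key n).2.2.2⟩
  rw [div_le_one hKp, hK]
  linarith

/-- Bounds for U, X, Y, Z at a small radius. -/
theorem rad1 : ∃ R M : ℝ, 0 < R ∧ R ≤ 1 ∧ 1 ≤ M ∧ Bd R S.U M ∧ Bd R S.X (M ^ 2) ∧ Bd R S.Y (M ^ 3) ∧ Bd R S.Z M := by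
  obtain ⟨R, hR0, hR1, bt, bv, bg, br⟩ := rad0 S
  have hR : 0 ≤ R := hR0.le
  have ha := norm_nonneg a
  have hc := norm_nonneg c
  have bxi : Bd R S.xi (1 + ‖a‖ * 2 ^ 2 + ‖c‖ * 2 ^ 2 * 2) :=
    (Bd.sub hR (Bd.sub hR Bd.one (Bd.mul hR (Bd.C a) (Bd.pow hR bt 2))) (Bd.mul hR (Bd.mul hR (Bd.C c) (Bd.pow hR bt 2)) bv))
  set M : ℝ := 10 * (1 + ‖a‖ * 2 ^ 2 + ‖c‖ * 2 ^ 2 * 2) with hM
  have hM1 : 10 ≤ M := by rw [hM]; nlinarith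
  have hx : 1 + ‖a‖ * 2 ^ 2 + ‖c‖ * 2 ^ 2 * 2 = M / 10 := by rw [hM]; ring
  rw [hx] at bxi
  have hM0 : 0 ≤ M := by linarith
  have hM2 : 10 * M ≤ M ^ 2 := by nlinarith
  have hM3 : 10 * M ≤ M ^ 3 := by nlinarith
  refine ⟨R, M, hR0, hR1, by linarith, (Bd.mul hR br bt).mono (by linarith), (Bd.mul hR (Bd.pow hR br 2) bxi).mono (by linarith),
    (Bd.mul hR (Bd.pow hR br 3) bxi).neg.mono (by linarith), (Bd.mul hR br (Bd.add hR Bd.one (Bd.mul hR bt bg))).mono (by linarith)⟩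

/-- The constant of the doubling step. -/
noncomputable def kB (a c : ℂ) : ℝ := 7 + 2 * ‖a‖ + 6 * ‖c‖ + 2 * ‖a‖ * ‖c‖ + ‖c‖ ^ 2

theorem kB_ge (a c : ℂ) : 1 ≤ kB a c := by
  unfold kB
  have ha := norm_nonneg a
  have hc := norm_nonneg c
  nlinarith [mul_nonneg ha hc, sq_nonneg ‖c‖]

/-- The doubling step. -/
theorem step (R M : ℝ) (hR : 0 ≤ R) (hM : 1 ≤ M) (bU : Bd R S.U M) (bX : Bd R S.X (M ^ 2)) (bY : Bd R S.Y (M ^ 3)) (bZ : Bd R S.Z M) :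
    Bd (2 * R) S.U (kB a c * M ^ 4) ∧ Bd (2 * R) S.X ((kB a c * M ^ 4) ^ 2) ∧ Bd (2 * R) S.Y ((kB a c * M ^ 4) ^ 3) ∧
      Bd (2 * R) S.Z (kB a c * M ^ 4) := by
  have ha := norm_nonneg a
  have hc := norm_nonneg c
  have hac := mul_nonneg ha hc
  have hM0 : 0 ≤ M := by linarith
  have hM4 : 0 ≤ M ^ 4 := by positivity
  have b2 : Bd R (2 : ℂ⟦X⟧) 2 := by simpa using Bd.nat (R := R) 2
  have b3 : Bd R (3 : ℂ⟦X⟧) 3 := by simpa using Bd.nat (R := R) 3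
  have b4 : Bd R (4 : ℂ⟦X⟧) 4 := by simpa using Bd.nat (R := R) 4
  have b6 : Bd R (6 : ℂ⟦X⟧) 6 := by simpa using Bd.nat (R := R) 6
  have hB1 := kB_ge a c
  have bq : Bd R (S.X ^ 2 - C c * S.U ^ 4) ((M ^ 2) ^ 2 + ‖c‖ * M ^ 4) :=
    Bd.sub hR (Bd.pow hR bX 2) (Bd.mul hR (Bd.C c) (Bd.pow hR bU 4))
  have eq1 : (M ^ 2) ^ 2 + ‖c‖ * M ^ 4 = (1 + ‖c‖) * M ^ 4 := by ring
  rw [eq1] at bq
  have hq : (1 + ‖c‖) * M ^ 4 ≤ kB a c * M ^ 4 := by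
    refine mul_le_mul_of_nonneg_right ?_ hM4
    unfold kB
    nlinarith [sq_nonneg ‖c‖]
  have bp : Bd R (S.X ^ 4 + 2 * C a * S.X ^ 3 * S.U ^ 2 + 6 * C c * S.X ^ 2 * S.U ^ 4 + 2 * C a * C c * S.X * S.U ^ 6 +
      C c ^ 2 * S.U ^ 8) ((M ^ 2) ^ 4 + 2 * ‖a‖ * (M ^ 2) ^ 3 * M ^ 2 + 6 * ‖c‖ * (M ^ 2) ^ 2 * M ^ 4 +
        2 * ‖a‖ * ‖c‖ * M ^ 2 * M ^ 6 + ‖c‖ ^ 2 * M ^ 8) := by
    refine Bd.add hR (Bd.add hR (Bd.add hR (Bd.add hR (Bd.pow hR bX 4) ?_) ?_) ?_) ?_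
    · exact Bd.mul hR (Bd.mul hR (Bd.mul hR b2 (Bd.C a)) (Bd.pow hR bX 3)) (Bd.pow hR bU 2)
    · exact Bd.mul hR (Bd.mul hR (Bd.mul hR b6 (Bd.C c)) (Bd.pow hR bX 2)) (Bd.pow hR bU 4)
    · exact Bd.mul hR (Bd.mul hR (Bd.mul hR (Bd.mul hR b2 (Bd.C a)) (Bd.C c)) bX) (Bd.pow hR bU 6)
    · exact Bd.mul hR (Bd.pow hR (Bd.C c) 2) (Bd.pow hR bU 8)
  have eq2 : (M ^ 2) ^ 4 + 2 * ‖a‖ * (M ^ 2) ^ 3 * M ^ 2 + 6 * ‖c‖ * (M ^ 2) ^ 2 * M ^ 4 +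
        2 * ‖a‖ * ‖c‖ * M ^ 2 * M ^ 6 + ‖c‖ ^ 2 * M ^ 8 = (1 + 2 * ‖a‖ + 6 * ‖c‖ + 2 * ‖a‖ * ‖c‖ + ‖c‖ ^ 2) * M ^ 8 := by ring
  rw [eq2] at bp
  refine ⟨?_, ?_, ?_, ?_⟩
  · apply Bd.dbl
    rw [dbl_U]
    refine (Bd.mul hR (Bd.mul hR b2.neg bY) bU).mono ?_
    have e : 2 * M ^ 3 * M = 2 * M ^ 4 := by ring
    rw [e]
    refine mul_le_mul_of_nonneg_right ?_ hM4
    unfold kB
    nlinarith [sq_nonneg ‖c‖]
  · apply Bd.dbl
    rw [dbl_X]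
    exact (Bd.pow hR (bq.mono hq) 2)
  · apply Bd.dbl
    rw [dbl_Y]
    refine (Bd.mul hR bq.neg bp).mono ?_
    have e : (kB a c * M ^ 4) ^ 3 = kB a c * M ^ 4 * (kB a c ^ 2 * M ^ 8) := by ring
    rw [e]
    refine mul_le_mul hq ?_ (by positivity) (by positivity)
    refine mul_le_mul_of_nonneg_right ?_ (by positivity)
    have h1 : 1 + 2 * ‖a‖ + 6 * ‖c‖ + 2 * ‖a‖ * ‖c‖ + ‖c‖ ^ 2 ≤ kB a c := by
      unfold kB
      linarith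
    nlinarith
  · apply Bd.dbl
    rw [dbl_Z]
    refine (Bd.sub hR (Bd.mul hR (Bd.mul hR b4.neg bY) bZ) (Bd.add hR (Bd.add hR (Bd.mul hR b3 (Bd.pow hR bX 2))
      (Bd.mul hR (Bd.mul hR (Bd.mul hR b2 (Bd.C a)) bX) (Bd.pow hR bU 2))) (Bd.mul hR (Bd.C c) (Bd.pow hR bU 4)))).mono ?_
    have e : 4 * M ^ 3 * M + (3 * (M ^ 2) ^ 2 + 2 * ‖a‖ * M ^ 2 * M ^ 2 + ‖c‖ * M ^ 4) = (7 + 2 * ‖a‖ + ‖c‖) * M ^ 4 := by ring
    rw [e]
    refine mul_le_mul_of_nonneg_right ?_ hM4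
    unfold kB
    nlinarith [sq_nonneg ‖c‖]

/-- From the bounds at the radii 2^k R. -/
theorem ag_of {F : ℂ⟦X⟧} {R β : ℝ} (hR : 0 < R) (hR1 : R ≤ 1) (hβ : 1 ≤ β) (h : ∀ k : ℕ, Bd (2 ^ k * R) F (β ^ (4 ^ k))) : AG F := by
  refine ⟨β * (2 / R), fun i => ?_⟩
  set k := Nat.log 4 (i + 1) with hk
  have h1 : 4 ^ k ≤ i + 1 := Nat.pow_log_le_self 4 (Nat.succ_ne_zero i)
  have h2 : i + 1 < 4 ^ (k + 1) := Nat.lt_pow_succ_log_self (by norm_num) (i + 1)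
  have h3 := (h k).coeff (by positivity) i
  have h4 : β ^ (4 ^ k) ≤ β ^ (i + 1) := pow_le_pow_right₀ hβ h1
  -- sqrt (i!) ≤ (2^(k+1))^i
  have h5 : Real.sqrt (i.factorial) ≤ (2 ^ (k + 1)) ^ i := by
    rw [Real.sqrt_le_left (by positivity)]
    have e1 : ((2 : ℝ) ^ (k + 1)) ^ i ^ 1 = (2 ^ (k + 1)) ^ i := by rw [pow_one]
    have e2 : (((2 : ℝ) ^ (k + 1)) ^ i) ^ 2 = (4 ^ (k + 1)) ^ i := by
      rw [← pow_mul, ← pow_mul, ← pow_mul]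
      have : (4 : ℝ) = 2 ^ 2 := by norm_num
      rw [this, ← pow_mul]
      congr 1
      ring
    rw [e2]
    have h6 : ((i.factorial : ℕ) : ℝ) ≤ ((i + 1 : ℕ) : ℝ) ^ i := by
      exact_mod_cast (Nat.factorial_le_pow i).trans (Nat.pow_le_pow_left (Nat.le_succ i) i)
    refine h6.trans (pow_le_pow_left₀ (by positivity) ?_ i)
    exact_mod_cast h2.le
  have hs : 0 < Real.sqrt (i.factorial) := Real.sqrt_pos.2 (by exact_mod_cast Nat.factorial_pos i)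
  rw [le_div_iff₀ hs]
  have hp : 0 < (2 ^ k * R) ^ i := by positivity
  have h7 : ‖coeff i F‖ ≤ β ^ (i + 1) / (2 ^ k * R) ^ i := by
    rw [le_div_iff₀ hp]
    exact h3.trans h4
  calc ‖coeff i F‖ * Real.sqrt (i.factorial) ≤ β ^ (i + 1) / (2 ^ k * R) ^ i * (2 ^ (k + 1)) ^ i :=
        mul_le_mul h7 h5 hs.le (by positivity)
    _ = β ^ (i + 1) * (2 / R) ^ i := by
        have e : (2 : ℝ) ^ (k + 1) = 2 ^ k * R * (2 / R) := by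
          rw [pow_succ]
          field_simp
        rw [e, mul_pow (2 ^ k * R)]
        field_simp
    _ ≤ β ^ (i + 1) * (2 / R) ^ (i + 1) := by
        refine mul_le_mul_of_nonneg_left ?_ (by positivity)
        refine pow_le_pow_right₀ ?_ (Nat.le_succ i)
        rw [le_div_iff₀ hR]
        linarith
    _ = (β * (2 / R)) ^ (i + 1) := (mul_pow _ _ _).symm

theorem all_rad : ∃ R β : ℝ, 0 < R ∧ R ≤ 1 ∧ 1 ≤ β ∧ ∀ k : ℕ, Bd (2 ^ k * R) S.U (β ^ (4 ^ k)) ∧ Bd (2 ^ k * R) S.X ((β ^ (4 ^ k)) ^ 2) ∧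
    Bd (2 ^ k * R) S.Y ((β ^ (4 ^ k)) ^ 3) ∧ Bd (2 ^ k * R) S.Z (β ^ (4 ^ k)) := by
  obtain ⟨R, M, hR0, hR1, hM, bU, bX, bY, bZ⟩ := rad1 S
  have hB1 := kB_ge a c
  have key : ∀ k : ℕ, ∃ N : ℝ, 1 ≤ N ∧ kB a c * N ≤ (kB a c * M) ^ (4 ^ k) ∧ Bd (2 ^ k * R) S.U N ∧ Bd (2 ^ k * R) S.X (N ^ 2) ∧
      Bd (2 ^ k * R) S.Y (N ^ 3) ∧ Bd (2 ^ k * R) S.Z N := by
    intro k
    induction k with
    | zero =>
      refine ⟨M, hM, ?_, ?_⟩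
      · rw [pow_zero, pow_one]
      · rw [pow_zero, one_mul]
        exact ⟨bU, bX, bY, bZ⟩
    | succ k ih =>
      obtain ⟨N, hN, hle, u, x, y, z⟩ := ih
      refine ⟨kB a c * N ^ 4, ?_, ?_, ?_⟩
      · have : 1 ≤ N ^ 4 := one_le_pow₀ hN
        nlinarith
      · have h1 : kB a c * (kB a c * N ^ 4) ≤ (kB a c * N) ^ 4 := by
          have h2 : (kB a c * N) ^ 4 = kB a c ^ 4 * N ^ 4 := mul_pow _ _ _
          rw [h2]
          have h3 : kB a c * (kB a c * N ^ 4) = kB a c ^ 2 * N ^ 4 := by ring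
          rw [h3]
          refine mul_le_mul_of_nonneg_right ?_ (by positivity)
          exact pow_le_pow_right₀ hB1 (by norm_num)
        refine h1.trans ?_
        rw [pow_succ 4 k, pow_mul]
        exact pow_le_pow_left₀ (by positivity) hle 4
      · have e : (2 : ℝ) ^ (k + 1) * R = 2 * (2 ^ k * R) := by ring
        rw [e]
        exact step S (2 ^ k * R) N (by positivity) hN u x y z
  refine ⟨R, kB a c * M, hR0, hR1, by nlinarith, fun k => ?_⟩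
  obtain ⟨N, hN, hle, u, x, y, z⟩ := key k
  have h0 : N ≤ (kB a c * M) ^ (4 ^ k) := by nlinarith
  have hN0 : 0 ≤ N := by linarith
  exact ⟨u.mono h0, x.mono (pow_le_pow_left₀ hN0 h0 2), y.mono (pow_le_pow_left₀ hN0 h0 3), z.mono h0⟩

/-- Growth. -/
theorem ag_main : AG S.U ∧ AG S.X ∧ AG S.Y ∧ AG S.Z := by
  obtain ⟨R, β, hR0, hR1, hβ, h⟩ := all_rad S
  have hpow : ∀ (k j : ℕ), (β ^ (4 ^ k)) ^ j = (β ^ j) ^ (4 ^ k) := by
    intro k j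
    rw [← pow_mul, ← pow_mul, mul_comm]
  refine ⟨ag_of hR0 hR1 hβ fun k => (h k).1, ag_of (β := β ^ 2) hR0 hR1 (one_le_pow₀ hβ) fun k => ?_,
    ag_of (β := β ^ 3) hR0 hR1 (one_le_pow₀ hβ) fun k => ?_, ag_of hR0 hR1 hβ fun k => (h k).2.2.2⟩
  · rw [← hpow]
    exact (h k).2.1
  · rw [← hpow]
    exact (h k).2.2.1

end H35LW
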