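import Mathlib
import Pool.Agent.Lib.H35LW.C3

/-! # H35LW, C5: the algebra AG, values -/

namespace H35LW

open PowerSeries H47E
open Finset hiding val

theorem AG.ge {F : ℂ⟦X⟧} (hF : AG F) : ∃ B : ℝ, 1 ≤ B ∧ ∀ i : ℕ, ‖coeff i F‖ ≤ B ^ (i + 1) / Real.sqrt (i.factorial) := by
  obtain ⟨B, hB⟩ := hF
  have h0 : 0 ≤ B := by
    have h := hB 0
    simp at h
    exact (norm_nonneg _).trans h
  refine ⟨B + 1, by linarith, fun i => (hB i).trans ?_⟩
  refine div_le_div_of_nonneg_right ?_ (Real.sqrt_nonneg _)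
  exact pow_le_pow_left₀ h0 (by linarith) _

theorem AG.add {F G : ℂ⟦X⟧} (hF : AG F) (hG : AG G) : AG (F + G) := by
  obtain ⟨A, hA, hA'⟩ := AG.ge hF
  obtain ⟨B, hB, hB'⟩ := AG.ge hG
  refine ⟨A + B, fun i => ?_⟩
  rw [map_add]
  refine (norm_add_le _ _).trans ((add_le_add (hA' i) (hB' i)).trans ?_)
  rw [← add_div]
  refine div_le_div_of_nonneg_right ?_ (Real.sqrt_nonneg _)
  exact pow_add_pow_le (by linarith) (by linarith) (Nat.succ_ne_zero i)

theorem AG.mul {F G : ℂ⟦X⟧} (hF : AG F) (hG : AG G) : AG (F * G) := by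
  obtain ⟨A, hA, hA'⟩ := AG.ge hF
  obtain ⟨B, hB, hB'⟩ := AG.ge hG
  refine ⟨4 * (A * B), fun i => ?_⟩
  rw [coeff_mul]
  have hs : 0 < Real.sqrt (i.factorial) := Real.sqrt_pos.2 (by exact_mod_cast Nat.factorial_pos i)
  have hAB : 1 ≤ A * B := by nlinarith
  have term : ∀ x ∈ antidiagonal i, ‖coeff x.1 F * coeff x.2 G‖ ≤ 2 ^ i * (A * B) ^ (i + 1) / Real.sqrt (i.factorial) := by
    intro x hx
    have hx' := HasAntidiagonal.mem_antidiagonal.1 hx
    rw [norm_mul]
    refine (mul_le_mul (hA' x.1) (hB' x.2) (norm_nonneg _) (by positivity)).trans ?_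
    have h1 : 0 < Real.sqrt (x.1.factorial) := Real.sqrt_pos.2 (by exact_mod_cast Nat.factorial_pos _)
    have h2 : 0 < Real.sqrt (x.2.factorial) := Real.sqrt_pos.2 (by exact_mod_cast Nat.factorial_pos _)
    rw [div_mul_div_comm, div_le_div_iff₀ (mul_pos h1 h2) hs]
    have h3 : A ^ (x.1 + 1) * B ^ (x.2 + 1) ≤ (A * B) ^ (i + 1) := by
      rw [mul_pow]
      exact mul_le_mul (pow_le_pow_right₀ hA (by omega)) (pow_le_pow_right₀ hB (by omega)) (by positivity) (by positivity)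
    have h4 : Real.sqrt (i.factorial) ≤ 2 ^ i * (Real.sqrt (x.1.factorial) * Real.sqrt (x.2.factorial)) := by
      rw [← Real.sqrt_mul (by positivity), Real.sqrt_le_left (by positivity), mul_pow, Real.sq_sqrt (by positivity)]
      have h5 : i.factorial = (i.choose x.1) * (x.1.factorial * x.2.factorial) := by
        have h6 := Nat.choose_mul_factorial_mul_factorial (n := i) (k := x.1) (by omega)
        have h7 : i - x.1 = x.2 := by omega
        rw [h7] at h6
        rw [← h6]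
        ring
      have h8 : ((i.choose x.1 : ℕ) : ℝ) ≤ (2 ^ i) ^ 2 := by
        have h9 : i.choose x.1 ≤ 2 ^ i := by
          rw [← Nat.sum_range_choose i]
          exact single_le_sum (f := fun m => i.choose m) (fun _ _ => Nat.zero_le _) (mem_range.2 (by omega))
        have h10 : ((i.choose x.1 : ℕ) : ℝ) ≤ 2 ^ i := by exact_mod_cast h9
        have h11 : (1 : ℝ) ≤ 2 ^ i := one_le_pow₀ (by norm_num)
        nlinarith
      have h12 : ((i.factorial : ℕ) : ℝ) = (i.choose x.1 : ℕ) * ((x.1.factorial : ℝ) * (x.2.factorial : ℝ)) := by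
        rw [h5]
        push_cast
        ring
      rw [h12]
      exact mul_le_mul_of_nonneg_right h8 (by positivity)
    calc A ^ (x.1 + 1) * B ^ (x.2 + 1) * Real.sqrt (i.factorial)
        ≤ (A * B) ^ (i + 1) * (2 ^ i * (Real.sqrt (x.1.factorial) * Real.sqrt (x.2.factorial))) :=
          mul_le_mul h3 h4 hs.le (by positivity)
      _ = 2 ^ i * (A * B) ^ (i + 1) * (Real.sqrt (x.1.factorial) * Real.sqrt (x.2.factorial)) := by ring
  refine (norm_sum_le _ _).trans ((sum_le_sum term).trans ?_)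
  rw [sum_const, Finset.Nat.card_antidiagonal, nsmul_eq_mul, ← mul_div_assoc]
  refine div_le_div_of_nonneg_right ?_ hs.le
  have h13 : ((i + 1 : ℕ) : ℝ) ≤ 2 ^ (i + 1) := by exact_mod_cast (Nat.lt_two_pow_self (n := i + 1)).le
  calc ((i + 1 : ℕ) : ℝ) * (2 ^ i * (A * B) ^ (i + 1)) ≤ 2 ^ (i + 1) * (2 ^ (i + 1) * (A * B) ^ (i + 1)) := by
        refine mul_le_mul h13 (mul_le_mul_of_nonneg_right ?_ (by positivity)) (by positivity) (by positivity)
        exact pow_le_pow_right₀ (by norm_num) (Nat.le_succ i)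
    _ = (4 * (A * B)) ^ (i + 1) := by
        have e4 : (4 : ℝ) ^ (i + 1) = 2 ^ (i + 1) * 2 ^ (i + 1) := by
          rw [← mul_pow]
          norm_num
        rw [mul_pow 4 (A * B), e4]
        ring

theorem AG.const (z : ℂ) : AG (C z) := by
  refine ⟨‖z‖, fun i => ?_⟩
  rw [coeff_C]
  split_ifs with h
  · rw [h]
    simp
  · rw [norm_zero]
    positivity

theorem AG.sc {F : ℂ⟦X⟧} (hF : AG F) (p : ℂ) : AG (sc p F) := by
  obtain ⟨A, hA, hA'⟩ := AG.ge hF
  refine ⟨(‖p‖ + 1) * A, fun i => ?_⟩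
  unfold H47E.sc
  rw [coeff_mk, norm_mul, norm_pow]
  have hp := norm_nonneg p
  have h1 : ‖p‖ ^ i ≤ (‖p‖ + 1) ^ (i + 1) :=
    (pow_le_pow_left₀ hp (by linarith) i).trans (pow_le_pow_right₀ (by linarith) (Nat.le_succ i))
  refine (mul_le_mul h1 (hA' i) (norm_nonneg _) (by positivity)).trans ?_
  rw [mul_pow, mul_div_assoc]

/-- All radii. -/
theorem AG.summable {F : ℂ⟦X⟧} (hF : AG F) (r : ℝ) (hr : 0 ≤ r) : Summable fun i => ‖coeff i F‖ * r ^ i := by
  obtain ⟨A, hA, hA'⟩ := AG.ge hF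
  have s1 : Summable fun i : ℕ => ((2 * A * r) ^ 2) ^ i / (i.factorial : ℝ) := Real.summable_pow_div_factorial _
  have s2 : Summable fun i : ℕ => ((1 : ℝ) / 4) ^ i := summable_geometric_of_lt_one (by norm_num) (by norm_num)
  refine Summable.of_nonneg_of_le (fun i => mul_nonneg (norm_nonneg _) (pow_nonneg hr _)) (fun i => ?_) ((s1.add s2).mul_left A)
  have hs : 0 < Real.sqrt (i.factorial) := Real.sqrt_pos.2 (by exact_mod_cast Nat.factorial_pos i)
  have h1 : ‖coeff i F‖ * r ^ i ≤ A ^ (i + 1) / Real.sqrt (i.factorial) * r ^ i := mul_le_mul_of_nonneg_right (hA' i) (pow_nonneg hr _)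
  refine h1.trans ?_
  have e1 : A ^ (i + 1) / Real.sqrt (i.factorial) * r ^ i = A * (((2 * A * r) ^ i / Real.sqrt (i.factorial)) * (1 / 2) ^ i) := by
    have e0 : (2 * A * r) ^ i * (1 / 2) ^ i = (A * r) ^ i := by
      rw [← mul_pow]
      congr 1
      ring
    have e4 : (2 * A * r) ^ i / Real.sqrt (i.factorial) * (1 / 2) ^ i = (A * r) ^ i / Real.sqrt (i.factorial) := by
      rw [← e0]
      ring
    rw [e4, mul_pow, pow_succ]
    ring
  rw [e1]
  refine mul_le_mul_of_nonneg_left ?_ (by linarith)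
  have e2 : ((2 * A * r) ^ 2) ^ i / (i.factorial : ℝ) = ((2 * A * r) ^ i / Real.sqrt (i.factorial)) ^ 2 := by
    rw [div_pow, Real.sq_sqrt (by positivity), ← pow_mul, ← pow_mul, mul_comm 2 i]
  have e3 : ((1 : ℝ) / 4) ^ i = ((1 / 2) ^ i) ^ 2 := by
    rw [← pow_mul, mul_comm, pow_mul]
    norm_num
  rw [e2, e3]
  set x := (2 * A * r) ^ i / Real.sqrt (i.factorial)
  set y := ((1 : ℝ) / 2) ^ i
  have hx : 0 ≤ x := div_nonneg (pow_nonneg (mul_nonneg (by linarith) hr) _) hs.le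
  have hy : 0 ≤ y := by positivity
  nlinarith [sq_nonneg (x - y), mul_nonneg hx hy]

/-! ## Values -/

/-- Absolute convergence at radius r. -/
def Cv (r : ℝ) (F : ℂ⟦X⟧) : Prop := Summable fun i => ‖coeff i F‖ * r ^ i

theorem Cv.term {r : ℝ} {F : ℂ⟦X⟧} (h : Cv r F) {z : ℂ} (hz : ‖z‖ ≤ r) : Summable fun i => ‖coeff i F * z ^ i‖ := by
  refine Summable.of_nonneg_of_le (fun i => norm_nonneg _) (fun i => ?_) h
  rw [norm_mul, norm_pow]
  exact mul_le_mul_of_nonneg_left (pow_le_pow_left₀ (norm_nonneg _) hz _) (norm_nonneg _)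

theorem cv_mul {r : ℝ} {F G : ℂ⟦X⟧} (hF : Cv r F) (hG : Cv r G) {z : ℂ} (hz : ‖z‖ ≤ r) : val (F * G) z = val F z * val G z := by
  have h := tsum_mul_tsum_eq_tsum_sum_antidiagonal_of_summable_norm (hF.term hz) (hG.term hz)
  unfold val
  rw [h]
  refine tsum_congr fun i => ?_
  rw [coeff_mul, sum_mul]
  refine sum_congr rfl fun x hx => ?_
  rw [← HasAntidiagonal.mem_antidiagonal.1 hx, pow_add]
  ring

theorem cv_add {r : ℝ} {F G : ℂ⟦X⟧} (hF : Cv r F) (hG : Cv r G) {z : ℂ} (hz : ‖z‖ ≤ r) : val (F + G) z = val F z + val G z := by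
  unfold val
  rw [← Summable.tsum_add (hF.term hz).of_norm (hG.term hz).of_norm]
  refine tsum_congr fun i => ?_
  rw [map_add, add_mul]

theorem val_neg (F : ℂ⟦X⟧) (z : ℂ) : val (-F) z = -val F z := by
  unfold val
  rw [← tsum_neg]
  refine tsum_congr fun i => ?_
  rw [map_neg, neg_mul]

theorem val_C (x z : ℂ) : val (C x) z = x := by
  unfold val
  rw [tsum_eq_single 0]
  · rw [pow_zero, mul_one, coeff_C, if_pos rfl]
  · intro i hi
    rw [coeff_C, if_neg hi, zero_mul]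

theorem val_zero (F : ℂ⟦X⟧) : val F 0 = constantCoeff F := by
  unfold val
  rw [tsum_eq_single 0]
  · rw [pow_zero, mul_one, coeff_zero_eq_constantCoeff_apply]
  · intro i hi
    rw [zero_pow hi, mul_zero]

/-- The derivative. -/
theorem cv_deriv {r : ℝ} (hr : 0 < r) {F : ℂ⟦X⟧} (hF : Cv (2 * r) F) {z : ℂ} (hz : ‖z‖ < r) :
    HasDerivAt (val F) (val (d⁄dX ℂ F) z) z := by
  have hu : Summable fun i : ℕ => ‖coeff i F‖ * (2 * r) ^ i / r := hF.div_const r
  have key := hasDerivAt_tsum_of_isPreconnected (g := fun (i : ℕ) (z : ℂ) => coeff i F * z ^ i)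
    (g' := fun (i : ℕ) (z : ℂ) => coeff i F * (i * z ^ (i - 1))) (u := fun i : ℕ => ‖coeff i F‖ * (2 * r) ^ i / r)
    (t := Metric.ball 0 r) (y₀ := 0) (y := z) hu Metric.isOpen_ball
    (convex_ball (0 : ℂ) r).isPreconnected (fun i y _ => (hasDerivAt_pow i y).const_mul _) (fun i y hy => ?_)
    (Metric.mem_ball_self hr) ?_ (mem_ball_zero_iff.2 hz)
  · have e : (∑' i : ℕ, coeff i F * (i * z ^ (i - 1))) = val (d⁄dX ℂ F) z := by
      unfold val
      have hs : Summable fun i : ℕ => coeff i F * (i * z ^ (i - 1)) := by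
        refine Summable.of_norm_bounded hu fun i => ?_
        rcases i with _ | i
        · rw [Nat.cast_zero, zero_mul, mul_zero, norm_zero]
          positivity
        · rw [norm_mul, norm_mul, norm_pow, Nat.add_sub_cancel, Complex.norm_natCast, mul_div_assoc]
          refine mul_le_mul_of_nonneg_left ?_ (norm_nonneg _)
          rw [le_div_iff₀ hr]
          have h1 : ((i + 1 : ℕ) : ℝ) ≤ 2 ^ (i + 1) := by exact_mod_cast (Nat.lt_two_pow_self (n := i + 1)).le
          have h2 : ‖z‖ ^ i ≤ r ^ i := pow_le_pow_left₀ (norm_nonneg _) hz.le i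
          calc ((i + 1 : ℕ) : ℝ) * ‖z‖ ^ i * r ≤ 2 ^ (i + 1) * r ^ i * r :=
                mul_le_mul_of_nonneg_right (mul_le_mul h1 h2 (by positivity) (by positivity)) hr.le
            _ = (2 * r) ^ (i + 1) := by rw [mul_pow, pow_succ r]; ring
      rw [hs.tsum_eq_zero_add]
      rw [Nat.cast_zero, zero_mul, mul_zero, zero_add]
      refine tsum_congr fun i => ?_
      rw [coeff_derivative, Nat.add_sub_cancel]
      push_cast
      ring
    rw [← e]
    exact key
  · have hy' := mem_ball_zero_iff.1 hy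
    rcases i with _ | i
    · rw [Nat.cast_zero, zero_mul, mul_zero, norm_zero]
      positivity
    · rw [norm_mul, norm_mul, norm_pow, Nat.add_sub_cancel, Complex.norm_natCast, mul_div_assoc]
      refine mul_le_mul_of_nonneg_left ?_ (norm_nonneg _)
      rw [le_div_iff₀ hr]
      have h1 : ((i + 1 : ℕ) : ℝ) ≤ 2 ^ (i + 1) := by exact_mod_cast (Nat.lt_two_pow_self (n := i + 1)).le
      have h2 : ‖y‖ ^ i ≤ r ^ i := pow_le_pow_left₀ (norm_nonneg _) hy'.le i
      calc ((i + 1 : ℕ) : ℝ) * ‖y‖ ^ i * r ≤ 2 ^ (i + 1) * r ^ i * r :=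
            mul_le_mul_of_nonneg_right (mul_le_mul h1 h2 (by positivity) (by positivity)) hr.le
        _ = (2 * r) ^ (i + 1) := by rw [mul_pow, pow_succ r]; ring
  · refine (summable_of_ne_finset_zero (s := {0}) fun i hi => ?_)
    rw [Finset.mem_singleton] at hi
    rw [zero_pow hi, mul_zero]

/-- All radii. -/
def Ent (F : ℂ⟦X⟧) : Prop := ∀ r : ℝ, 0 ≤ r → Cv r F

theorem AG.ent {F : ℂ⟦X⟧} (hF : AG F) : Ent F := fun r hr => AG.summable hF r hr

theorem val_mul {F G : ℂ⟦X⟧} (hF : AG F) (hG : AG G) (z : ℂ) : val (F * G) z = val F z * val G z :=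
  cv_mul (AG.ent hF ‖z‖ (norm_nonneg _)) (AG.ent hG ‖z‖ (norm_nonneg _)) le_rfl

theorem val_add {F G : ℂ⟦X⟧} (hF : AG F) (hG : AG G) (z : ℂ) : val (F + G) z = val F z + val G z :=
  cv_add (AG.ent hF ‖z‖ (norm_nonneg _)) (AG.ent hG ‖z‖ (norm_nonneg _)) le_rfl

theorem val_sc {F : ℂ⟦X⟧} (p z : ℂ) : val (sc p F) z = val F (p * z) := by
  unfold val H47E.sc
  refine tsum_congr fun i => ?_
  rw [coeff_mk, mul_pow]
  ring

theorem Ent.d {F : ℂ⟦X⟧} (hF : Ent F) : Ent (d⁄dX ℂ F) := by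
  intro r hr
  have h := (hF (2 * (r + 1)) (by linarith))
  have h1 := (summable_nat_add_iff 1).2 h
  refine Summable.of_nonneg_of_le (fun i => mul_nonneg (norm_nonneg _) (pow_nonneg hr _)) (fun i => ?_) h1
  rw [coeff_derivative, norm_mul]
  have h2 : ‖((i : ℂ) + 1)‖ ≤ 2 ^ (i + 1) := by
    have h3 : ((i : ℂ) + 1) = ((i + 1 : ℕ) : ℂ) := by push_cast; ring
    rw [h3, Complex.norm_natCast]
    exact_mod_cast (Nat.lt_two_pow_self (n := i + 1)).le
  have h4 : r ^ i ≤ (r + 1) ^ (i + 1) :=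
    (pow_le_pow_left₀ hr (by linarith) i).trans (pow_le_pow_right₀ (by linarith) (Nat.le_succ i))
  rw [mul_assoc, mul_pow]
  exact mul_le_mul_of_nonneg_left (mul_le_mul h2 h4 (by positivity) (by positivity)) (norm_nonneg _)

theorem Ent.hasDeriv {F : ℂ⟦X⟧} (hF : Ent F) (z : ℂ) : HasDerivAt (val F) (val (d⁄dX ℂ F) z) z :=
  cv_deriv (r := ‖z‖ + 1) (by positivity) (hF _ (by positivity)) (by linarith)

theorem val_differentiable {F : ℂ⟦X⟧} (hF : AG F) : Differentiable ℂ (val F) := fun z =>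
  ((AG.ent hF).hasDeriv z).differentiableAt

theorem Ent.iter {F : ℂ⟦X⟧} (hF : Ent F) (i : ℕ) : Ent ((d⁄dX ℂ)^[i] F) ∧ iteratedDeriv i (val F) = val ((d⁄dX ℂ)^[i] F) := by
  induction i with
  | zero => exact ⟨hF, by rw [iteratedDeriv_zero]; rfl⟩
  | succ i ih =>
    obtain ⟨h1, h2⟩ := ih
    rw [Function.iterate_succ_apply']
    refine ⟨h1.d, ?_⟩
    rw [iteratedDeriv_succ, h2]
    funext z
    exact (h1.hasDeriv z).deriv

theorem coeff_iter (F : ℂ⟦X⟧) (i l : ℕ) : coeff l ((d⁄dX ℂ)^[i] F) = ((l + i).factorial : ℂ) / (l.factorial : ℂ) * coeff (l + i) F := by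
  induction i generalizing l with
  | zero =>
    rw [Function.iterate_zero, id, add_zero, div_self (by exact_mod_cast Nat.factorial_ne_zero l), one_mul]
  | succ i ih =>
    rw [Function.iterate_succ_apply', coeff_derivative, ih (l + 1)]
    have e : l + 1 + i = l + (i + 1) := by ring
    rw [e]
    have h1 : ((l + 1).factorial : ℂ) = ((l : ℂ) + 1) * (l.factorial : ℂ) := by
      rw [Nat.factorial_succ]
      push_cast
      ring
    have h2 : ((l : ℂ) + 1) ≠ 0 := by exact_mod_cast Nat.succ_ne_zero l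
    have h3 : (l.factorial : ℂ) ≠ 0 := by exact_mod_cast Nat.factorial_ne_zero l
    rw [h1]
    field_simp

/-- The Taylor series. -/
theorem taylor_coeff {F : ℂ⟦X⟧} (hF : AG F) (z₀ : ℂ) (i : ℕ) :
    coeff i (taylor z₀ F) = iteratedDeriv i (val F) z₀ / (i.factorial : ℂ) := by
  rw [((AG.ent hF).iter i).2]
  unfold taylor val
  rw [coeff_mk, ← tsum_div_const]
  refine tsum_congr fun l => ?_
  rw [coeff_iter]
  have h3 : (l.factorial : ℂ) ≠ 0 := by exact_mod_cast Nat.factorial_ne_zero l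
  have h4 : (i.factorial : ℂ) ≠ 0 := by exact_mod_cast Nat.factorial_ne_zero i
  have h5 : ((l + i).choose i : ℂ) = ((l + i).factorial : ℂ) / ((l.factorial : ℂ) * (i.factorial : ℂ)) := by
    rw [Nat.cast_choose ℂ (Nat.le_add_left i l), Nat.add_sub_cancel]
    rw [mul_comm (i.factorial : ℂ)]
  rw [h5]
  field_simp

end H35LW
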