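import Mathlib
import Pool.Agent.Lib.H35LW.C4
import Pool.Agent.Lib.H35LW.C5

/-! # H35LW, C6A: orders, values of the series near 0 -/

namespace H35LW

open PowerSeries H47E Filter Topology

/-- Linear homogeneous systems: the order argument. -/
theorem lin_unique {f₁ f₂ A B D E : ℂ → ℂ} {z₀ : ℂ} (h1 : AnalyticAt ℂ f₁ z₀) (h2 : AnalyticAt ℂ f₂ z₀) (hA : AnalyticAt ℂ A z₀)
    (hB : AnalyticAt ℂ B z₀) (hD : AnalyticAt ℂ D z₀) (hE : AnalyticAt ℂ E z₀) (z1 : f₁ z₀ = 0) (z2 : f₂ z₀ = 0)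
    (e1 : ∀ᶠ z in 𝓝[≠] z₀, deriv f₁ z = A z * f₁ z + B z * f₂ z)
    (e2 : ∀ᶠ z in 𝓝[≠] z₀, deriv f₂ z = D z * f₁ z + E z * f₂ z) :
    (∀ᶠ z in 𝓝 z₀, f₁ z = 0) ∧ (∀ᶠ z in 𝓝 z₀, f₂ z = 0) := by
  have key : ∀ {f f' P Q : ℂ → ℂ} (hf : AnalyticAt ℂ f z₀) (hf' : AnalyticAt ℂ f' z₀) (hP : AnalyticAt ℂ P z₀)
      (hQ : AnalyticAt ℂ Q z₀) (g : ℂ → ℂ) (_ : AnalyticAt ℂ g z₀) (_ : g z₀ = 0)
      (_ : ∀ᶠ z in 𝓝[≠] z₀, deriv g z = P z * f z + Q z * f' z),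
      min (analyticOrderAt f z₀) (analyticOrderAt f' z₀) + 1 ≤ analyticOrderAt g z₀ := by
    intro f f' P Q hf hf' hP hQ g hg g0 hev
    have e : ∀ᶠ z in 𝓝 z₀, deriv g z = (P * f + Q * f') z :=
      (hg.deriv.frequently_eq_iff_eventually_eq ((hP.mul hf).add (hQ.mul hf'))).1 hev.frequently
    have h3 := hg.analyticOrderAt_deriv_add_one
    have h4 : (fun z => g z - g z₀) = g := by
      funext z
      rw [g0, sub_zero]
    rw [h4] at h3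
    rw [← h3, analyticOrderAt_congr e]
    refine add_le_add ?_ le_rfl
    refine le_trans ?_ le_analyticOrderAt_add
    rw [analyticOrderAt_mul hP hf, analyticOrderAt_mul hQ hf']
    exact min_le_min le_add_self le_add_self
  have k1 := key h1 h2 hA hB f₁ h1 z1 e1
  have k2 := key h1 h2 hD hE f₂ h2 z2 e2
  have k3 : min (analyticOrderAt f₁ z₀) (analyticOrderAt f₂ z₀) = ⊤ := by
    by_contra hne
    have k4 := le_min k1 k2
    exact absurd k4 (not_le.2 ((ENat.lt_add_one_iff hne).2 le_rfl))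
  rw [min_eq_top] at k3
  exact ⟨analyticOrderAt_eq_top.1 k3.1, analyticOrderAt_eq_top.1 k3.2⟩

/-- One function. -/
theorem lin_unique1 {f A : ℂ → ℂ} {z₀ : ℂ} (h1 : AnalyticAt ℂ f z₀) (hA : AnalyticAt ℂ A z₀) (z1 : f z₀ = 0)
    (e1 : ∀ᶠ z in 𝓝[≠] z₀, deriv f z = A z * f z) : ∀ᶠ z in 𝓝 z₀, f z = 0 := by
  refine (lin_unique (f₂ := f) (B := fun _ => 0) (D := fun _ => 0) (E := A) h1 h1 hA analyticAt_const analyticAt_const hA z1 z1 ?_ ?_).1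
  · filter_upwards [e1] with z hz
    rw [hz]
    ring
  · filter_upwards [e1] with z hz
    rw [hz]
    ring

/-! ## The series near 0 -/

/-- Bounded truncated norms at radius R. -/
def Gd (R : ℝ) (F : ℂ⟦X⟧) : Prop := ∃ B, Bd R F B

section gd

variable {R : ℝ} (hR : 0 ≤ R)

include hR

theorem Gd.cv {F : ℂ⟦X⟧} (h : Gd R F) : Cv R F := by
  obtain ⟨B, hB⟩ := h
  exact hB.summable hR

theorem Gd.add {F G : ℂ⟦X⟧} (hF : Gd R F) (hG : Gd R G) : Gd R (F + G) := by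
  obtain ⟨A, hA⟩ := hF
  obtain ⟨B, hB⟩ := hG
  exact ⟨_, hA.add hR hB⟩

theorem Gd.mul {F G : ℂ⟦X⟧} (hF : Gd R F) (hG : Gd R G) : Gd R (F * G) := by
  obtain ⟨A, hA⟩ := hF
  obtain ⟨B, hB⟩ := hG
  exact ⟨_, hA.mul hR hB⟩

omit hR in
theorem Gd.neg {F : ℂ⟦X⟧} (hF : Gd R F) : Gd R (-F) := by
  obtain ⟨A, hA⟩ := hF
  exact ⟨_, hA.neg⟩

omit hR in
theorem Gd.C (x : ℂ) : Gd R (PowerSeries.C x) := ⟨_, Bd.C x⟩

variable {z : ℂ} (hz : ‖z‖ ≤ R)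

include hz

theorem Gd.vmul {F G : ℂ⟦X⟧} (hF : Gd R F) (hG : Gd R G) : Gd R (F * G) ∧ val (F * G) z = val F z * val G z :=
  ⟨hF.mul hR hG, cv_mul (hF.cv hR) (hG.cv hR) hz⟩

theorem Gd.vadd {F G : ℂ⟦X⟧} (hF : Gd R F) (hG : Gd R G) : Gd R (F + G) ∧ val (F + G) z = val F z + val G z :=
  ⟨hF.add hR hG, cv_add (hF.cv hR) (hG.cv hR) hz⟩

end gd

/-- Evaluation: pairs (series, value). -/
def Ev (R : ℝ) (z : ℂ) (F : ℂ⟦X⟧) (x : ℂ) : Prop := Gd R F ∧ val F z = x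

section ev

variable {R : ℝ} {z : ℂ} {F G : ℂ⟦X⟧} {x y : ℂ}

theorem Ev.add (hR : 0 ≤ R) (hz : ‖z‖ ≤ R) (hF : Ev R z F x) (hG : Ev R z G y) : Ev R z (F + G) (x + y) := by
  obtain ⟨h1, h2⟩ := hF.1.vadd hR hz hG.1
  exact ⟨h1, by rw [h2, hF.2, hG.2]⟩

theorem Ev.mul (hR : 0 ≤ R) (hz : ‖z‖ ≤ R) (hF : Ev R z F x) (hG : Ev R z G y) : Ev R z (F * G) (x * y) := by
  obtain ⟨h1, h2⟩ := hF.1.vmul hR hz hG.1
  exact ⟨h1, by rw [h2, hF.2, hG.2]⟩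

theorem Ev.neg (hF : Ev R z F x) : Ev R z (-F) (-x) := ⟨hF.1.neg, by rw [val_neg, hF.2]⟩

theorem Ev.C (x : ℂ) : Ev R z (PowerSeries.C x) x := ⟨Gd.C x, val_C x z⟩

theorem Ev.one : Ev R z 1 1 := by
  have h := Ev.C (R := R) (z := z) 1
  rwa [map_one] at h

theorem Ev.two : Ev R z 2 2 := by
  have h := Ev.C (R := R) (z := z) 2
  rwa [map_ofNat] at h

theorem Ev.sub (hR : 0 ≤ R) (hz : ‖z‖ ≤ R) (hF : Ev R z F x) (hG : Ev R z G y) : Ev R z (F - G) (x - y) := by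
  have h := hF.add hR hz hG.neg
  rwa [← sub_eq_add_neg, ← sub_eq_add_neg] at h

theorem Ev.pow (hR : 0 ≤ R) (hz : ‖z‖ ≤ R) (hF : Ev R z F x) (n : ℕ) : Ev R z (F ^ n) (x ^ n) := by
  induction n with
  | zero =>
    rw [pow_zero, pow_zero]
    exact Ev.one
  | succ n ih =>
    rw [pow_succ, pow_succ]
    exact ih.mul hR hz hF

end ev

variable {a c : ℂ} (S : Ser ℂ a c)

/-- The values of the series near 0. -/
structure Near (z : ℂ) : Prop where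
  v : val S.v z = val S.t z ^ 2 * (1 + a * val S.v z + c * val S.v z ^ 2)
  dt : HasDerivAt (val S.t) (1 - a * val S.t z ^ 2 - 2 * c * val S.t z ^ 2 * val S.v z) z
  dv : HasDerivAt (val S.v) (2 * val S.t z * (1 + a * val S.v z + c * val S.v z ^ 2)) z
  dg : HasDerivAt (val S.g) (-(c * val S.v z)) z
  dr : HasDerivAt (val S.rho) (val S.rho z * (val S.g z + a * val S.t z + 2 * c * val S.t z * val S.v z)) z
  U : val S.U z = val S.rho z * val S.t z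
  X : val S.X z = val S.rho z ^ 2 * (1 - a * val S.t z ^ 2 - c * val S.t z ^ 2 * val S.v z)
  Y : val S.Y z = -(val S.rho z ^ 3 * (1 - a * val S.t z ^ 2 - c * val S.t z ^ 2 * val S.v z))
  Z : val S.Z z = val S.rho z * (1 + val S.t z * val S.g z)

theorem near_all : ∃ r : ℝ, 0 < r ∧ ∀ z : ℂ, ‖z‖ < r → Near S z := by
  obtain ⟨R, hR0, hR1, bt, bv, bg, br⟩ := rad0 S
  refine ⟨R / 2, by linarith, fun z hz => ?_⟩
  have hR : 0 ≤ R := hR0.le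
  have hz' : ‖z‖ ≤ R := by linarith
  have et : Ev R z S.t (val S.t z) := ⟨⟨_, bt⟩, rfl⟩
  have ev : Ev R z S.v (val S.v z) := ⟨⟨_, bv⟩, rfl⟩
  have eg : Ev R z S.g (val S.g z) := ⟨⟨_, bg⟩, rfl⟩
  have er : Ev R z S.rho (val S.rho z) := ⟨⟨_, br⟩, rfl⟩
  have ea : Ev R z (C a) a := Ev.C a
  have ec : Ev R z (C c) c := Ev.C c
  have dd : ∀ {F : ℂ⟦X⟧}, Gd R F → HasDerivAt (val F) (val (d⁄dX ℂ F) z) z := fun {F} hF =>
    cv_deriv (r := R / 2) (by linarith) (by rw [show 2 * (R / 2) = R by ring]; exact hF.cv hR) hz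
  have e2 : Ev R z 2 2 := Ev.two
  have e1 : Ev R z 1 1 := Ev.one
  have ext : Ev R z (1 - C a * S.t ^ 2 - C c * S.t ^ 2 * S.v) (1 - a * val S.t z ^ 2 - c * val S.t z ^ 2 * val S.v z) :=
    Ev.sub hR hz' (Ev.sub hR hz' e1 (Ev.mul hR hz' ea (et.pow hR hz' 2))) (Ev.mul hR hz' (Ev.mul hR hz' ec (et.pow hR hz' 2)) ev)
  have ew : Ev R z (1 + C a * S.v + C c * S.v ^ 2) (1 + a * val S.v z + c * val S.v z ^ 2) :=
    Ev.add hR hz' (Ev.add hR hz' e1 (Ev.mul hR hz' ea ev)) (Ev.mul hR hz' ec (ev.pow hR hz' 2))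
  refine ⟨?_, ?_, ?_, ?_, ?_, ?_, ?_, ?_, ?_⟩
  · have h := (Ev.mul hR hz' (et.pow hR hz' 2) ew).2
    rwa [← S.hv] at h
  · refine (dd et.1).congr_deriv ?_
    rw [S.ht]
    exact (Ev.sub hR hz' (Ev.sub hR hz' e1 (Ev.mul hR hz' ea (et.pow hR hz' 2)))
      (Ev.mul hR hz' (Ev.mul hR hz' (Ev.mul hR hz' e2 ec) (et.pow hR hz' 2)) ev)).2
  · refine (dd ev.1).congr_deriv ?_
    rw [dv_of S.ht S.hv S.t0]
    exact (Ev.mul hR hz' (Ev.mul hR hz' e2 et) ew).2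
  · refine (dd eg.1).congr_deriv ?_
    rw [S.hg]
    exact (Ev.mul hR hz' ec ev).neg.2
  · refine (dd er.1).congr_deriv ?_
    rw [S.hrho]
    exact (Ev.mul hR hz' er (Ev.add hR hz' (Ev.add hR hz' eg (Ev.mul hR hz' ea et))
      (Ev.mul hR hz' (Ev.mul hR hz' (Ev.mul hR hz' e2 ec) et) ev))).2
  · exact (Ev.mul hR hz' er et).2
  · exact (Ev.mul hR hz' (er.pow hR hz' 2) ext).2
  · exact (Ev.mul hR hz' (er.pow hR hz' 3) ext).neg.2
  · exact (Ev.mul hR hz' er (Ev.add hR hz' e1 (Ev.mul hR hz' et eg))).2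

/-- Analyticity near 0. -/
theorem near_an : AnalyticAt ℂ (val S.t) 0 ∧ AnalyticAt ℂ (val S.v) 0 ∧ AnalyticAt ℂ (val S.g) 0 ∧ AnalyticAt ℂ (val S.rho) 0 := by
  obtain ⟨r, hr, h⟩ := near_all S
  have key : ∀ f : ℂ → ℂ, (∀ z : ℂ, ‖z‖ < r → DifferentiableAt ℂ f z) → AnalyticAt ℂ f 0 := by
    intro f hf
    have h1 : DifferentiableOn ℂ f (Metric.ball 0 r) := fun z hz => (hf z (mem_ball_zero_iff.1 hz)).differentiableWithinAt
    exact h1.analyticAt (Metric.ball_mem_nhds 0 hr)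
  exact ⟨key _ fun z hz => (h z hz).dt.differentiableAt, key _ fun z hz => (h z hz).dv.differentiableAt,
    key _ fun z hz => (h z hz).dg.differentiableAt, key _ fun z hz => (h z hz).dr.differentiableAt⟩

theorem near_ev : ∀ᶠ z in 𝓝 (0 : ℂ), Near S z := by
  obtain ⟨r, hr, h⟩ := near_all S
  filter_upwards [Metric.ball_mem_nhds (0 : ℂ) hr] with z hz
  exact h z (mem_ball_zero_iff.1 hz)

end H35LW
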