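import Mathlib
import Pool.Agent.Lib.H35P.A9

/-! # H35LW, C6B: the Weierstrass functions near 0 -/

namespace H35LW

open Filter Topology
open H35P (A5_t A5_z)

variable (L : PeriodPair)

/-! ## The curve -/

section curve

variable {L} {e a c : ℂ} (root : 4 * e ^ 3 - L.g₂ * e - L.g₃ = 0) (ha : a = 3 * e) (hc : c = 3 * e ^ 2 - L.g₂ / 4)

include root ha hc

theorem curve {z : ℂ} (hz : z ∉ L.lattice) :
    (L.derivWeierstrassP z / 2) ^ 2 = (L.weierstrassP z - e) ^ 3 + a * (L.weierstrassP z - e) ^ 2 + c * (L.weierstrassP z - e) := by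
  have h := L.derivWeierstrassP_sq z hz
  rw [ha, hc]
  linear_combination h / 4 + root / 4

omit root ha hc in
theorem x_deriv (e : ℂ) {z : ℂ} (hz : z ∉ L.lattice) :
    HasDerivAt (fun z => L.weierstrassP z - e) (2 * (L.derivWeierstrassP z / 2)) z := by
  refine ((H35P.wp_hasDeriv L z hz).sub_const e).congr_deriv ?_
  ring

omit root in
theorem y_deriv {z : ℂ} (hz : z ∉ L.lattice) : HasDerivAt (fun z => L.derivWeierstrassP z / 2)
    (3 * (L.weierstrassP z - e) ^ 2 + 2 * a * (L.weierstrassP z - e) + c) z := by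
  refine ((H35P.wpd_hasDeriv L z hz).div_const 2).congr_deriv ?_
  rw [ha, hc]
  ring

omit root ha hc in
theorem w_deriv (e : ℂ) {z : ℂ} (hz : z ∉ L.lattice) :
    HasDerivAt (fun z => A5_z L z + e * z) (-(L.weierstrassP z - e)) z := by
  refine ((H35P.A5_hasDeriv L z hz).add ((hasDerivAt_id z).const_mul e)).congr_deriv ?_
  ring

theorem x_ne {z : ℂ} (hz : 2 * z ∉ L.lattice) : L.weierstrassP z - e ≠ 0 := by
  intro h0
  have hz1 : z ∉ L.lattice := fun h => hz (by rw [two_mul]; exact L.lattice.add_mem h h)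
  have h := curve root ha hc hz1
  rw [h0] at h
  have h1 : (L.derivWeierstrassP z / 2) ^ 2 = 0 := by rw [h]; ring
  have h2 : L.derivWeierstrassP z / 2 = 0 := by
    rwa [pow_eq_zero_iff two_ne_zero] at h1
  have h3 : L.derivWeierstrassP z = 0 := by
    linear_combination 2 * h2
  exact H35P.wpd_ne L z hz1 hz h3

end curve

/-! ## zeta near 0 -/

open Classical in
/-- The terms other than 1/z. -/
noncomputable def zq (l : L.lattice) (z : ℂ) : ℂ := if (l : ℂ) = 0 then 0 else A5_t l.1 z

theorem zq_unif : HasSumLocallyUniformly (zq L) (fun z => ∑' l : L.lattice, zq L l z) := by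
  refine L.hasSumLocallyUniformly_aux (u := (2 * · ^ 2 * ‖·‖ ^ (-3 : ℝ))) _
    (fun _ _ => (ZLattice.summable_norm_rpow _ _ (by simp; norm_num)).mul_left _) fun r hr =>
    Filter.eventually_atTop.mpr ⟨2 * r, ?_⟩
  rintro _ h s hs l rfl
  unfold zq
  split_ifs with h0
  · rw [norm_zero]
    positivity
  · exact H35P.A5_bound r hr s hs l h

theorem zeta_zero : ∃ q : ℂ → ℂ, AnalyticAt ℂ q 0 ∧ q 0 = 0 ∧ ∀ z : ℂ, z ≠ 0 → A5_z L z = z⁻¹ + q z := by
  classical
  refine ⟨fun z => ∑' l : L.lattice, zq L l z, ?_, ?_, ?_⟩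
  · have h := H35P.ev_compl L 0
    rw [eventually_nhdsWithin_iff] at h
    obtain ⟨r, hr, hball⟩ := Metric.eventually_nhds_iff_ball.1 h
    have hu : TendstoLocallyUniformlyOn (fun (s : Finset L.lattice) (z : ℂ) => ∑ l ∈ s, zq L l z) (fun z => ∑' l : L.lattice, zq L l z)
        Filter.atTop (Metric.ball 0 r) := (zq_unif L).tendstoLocallyUniformlyOn
    have hd : ∀ᶠ s : Finset L.lattice in Filter.atTop, DifferentiableOn ℂ (fun z => ∑ l ∈ s, zq L l z) (Metric.ball 0 r) := by
      refine .of_forall fun s => .fun_sum fun i _ => ?_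
      intro z hz
      by_cases h0 : (i : ℂ) = 0
      · have e : zq L i = fun _ => 0 := by
          funext w
          unfold zq
          rw [if_pos h0]
        rw [e]
        exact differentiableWithinAt_const _
      · have e : zq L i = A5_t i.1 := by
          funext w
          unfold zq
          rw [if_neg h0]
        rw [e]
        refine (H35P.A5_term_deriv i.1 z ?_).differentiableAt.differentiableWithinAt
        rintro rfl
        exact hball _ hz h0 i.2
    exact (hu.differentiableOn hd Metric.isOpen_ball).analyticAt (Metric.ball_mem_nhds 0 hr)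
  · refine (tsum_congr fun l => ?_).trans tsum_zero
    unfold zq
    split_ifs with h0
    · rfl
    · unfold H35P.A5_t
      rw [zero_sub, zero_div, add_zero, inv_neg]
      ring
  · intro z hz
    have hs : Summable fun l : L.lattice => A5_t l.1 z := ((H35P.A5_unif L).hasSum (x := z)).summable
    have h1 := hs.tsum_eq_add_tsum_ite (0 : L.lattice)
    unfold H35P.A5_z
    rw [h1]
    congr 1
    · unfold H35P.A5_t
      simp
    · refine tsum_congr fun l => ?_
      unfold zq
      by_cases h0 : l = 0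
      · rw [if_pos h0, if_pos (by rw [h0]; rfl)]
      · rw [if_neg h0, if_neg (show ¬ ((l : ℂ) = 0) from fun h => h0 (Subtype.ext h))]

end H35LW
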