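import Mathlib
import Pool.Agent.Lib.H35LW.C6B

/-! # H35LW, C6C: the curve is nonsingular -/

namespace H35LW

variable (L : PeriodPair)

theorem half_not (p q : ℤ) (h : ¬ (Even p ∧ Even q)) : ((p : ℂ) * L.ω₁ + q * L.ω₂) / 2 ∉ L.lattice := by
  rw [PeriodPair.mem_lattice]
  rintro ⟨m, n, hmn⟩
  have h1 := LinearIndependent.pair_iff.1 L.indep ((m : ℝ) - p / 2) ((n : ℝ) - q / 2) (by
    rw [Complex.real_smul, Complex.real_smul]
    push_cast
    linear_combination hmn)
  have h2 : p = m + m := by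
    have h3 : (p : ℝ) = ((m + m : ℤ) : ℝ) := by
      push_cast
      linarith [h1.1]
    exact_mod_cast h3
  have h4 : q = n + n := by
    have h3 : (q : ℝ) = ((n + n : ℤ) : ℝ) := by
      push_cast
      linarith [h1.2]
    exact_mod_cast h3
  exact h ⟨⟨m, h2⟩, ⟨n, h4⟩⟩

theorem per_mem (p q : ℤ) : 2 * (((p : ℂ) * L.ω₁ + q * L.ω₂) / 2) ∈ L.lattice := by
  rw [PeriodPair.mem_lattice]
  exact ⟨p, q, by ring⟩

variable {L}

theorem norm_disc {e a c : ℂ} (root : 4 * e ^ 3 - L.g₂ * e - L.g₃ = 0) (ha : a = 3 * e) (hc : c = 3 * e ^ 2 - L.g₂ / 4) :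
    c ≠ 0 ∧ a ^ 2 ≠ 4 * c := by
  set h : ℤ → ℤ → ℂ := fun p q => ((p : ℂ) * L.ω₁ + q * L.ω₂) / 2 with hh
  have n1 : h 1 0 ∉ L.lattice := half_not L 1 0 (by decide)
  have n2 : h 0 1 ∉ L.lattice := half_not L 0 1 (by decide)
  have n3 : h 1 1 ∉ L.lattice := half_not L 1 1 (by decide)
  have n4 : h 1 (-1) ∉ L.lattice := half_not L 1 (-1) (by decide)
  have n5 : h 2 1 ∉ L.lattice := half_not L 2 1 (by decide)
  have n6 : h 0 (-1) ∉ L.lattice := half_not L 0 (-1) (by decide)
  have n7 : h 1 2 ∉ L.lattice := half_not L 1 2 (by decide)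
  have n8 : h (-1) 0 ∉ L.lattice := half_not L (-1) 0 (by decide)
  have add : ∀ p q p' q' : ℤ, h p q + h p' q' = h (p + p') (q + q') := by
    intro p q p' q'
    rw [hh]
    push_cast
    ring
  have sub : ∀ p q p' q' : ℤ, h p q - h p' q' = h (p - p') (q - q') := by
    intro p q p' q'
    rw [hh]
    push_cast
    ring
  have d12 : L.weierstrassP (h 1 0) ≠ L.weierstrassP (h 0 1) :=
    H35P.wp_ne L _ _ n1 n2 (by rw [add]; exact n3) (by rw [sub]; exact n4)
  have d13 : L.weierstrassP (h 1 0) ≠ L.weierstrassP (h 1 1) :=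
    H35P.wp_ne L _ _ n1 n3 (by rw [add]; exact n5) (by rw [sub]; exact n6)
  have d23 : L.weierstrassP (h 0 1) ≠ L.weierstrassP (h 1 1) :=
    H35P.wp_ne L _ _ n2 n3 (by rw [add]; exact n7) (by rw [sub]; exact n8)
  have key : ∀ p q : ℤ, h p q ∉ L.lattice → (L.weierstrassP (h p q) - e) *
      ((L.weierstrassP (h p q) - e) ^ 2 + a * (L.weierstrassP (h p q) - e) + c) = 0 := by
    intro p q hpq
    have h1 := curve root ha hc hpq
    have h2 : L.derivWeierstrassP (h p q) = 0 := H35P.A4_wpd_half (per_mem L p q)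
    rw [h2] at h1
    linear_combination -h1
  have k1 := key 1 0 n1
  have k2 := key 0 1 n2
  have k3 := key 1 1 n3
  generalize L.weierstrassP (h 1 0) = x1 at *
  generalize L.weierstrassP (h 0 1) = x2 at *
  generalize L.weierstrassP (h 1 1) = x3 at *
  have e12 : x1 - x2 ≠ 0 := sub_ne_zero.2 d12
  have e13 : x1 - x3 ≠ 0 := sub_ne_zero.2 d13
  have e23 : x2 - x3 ≠ 0 := sub_ne_zero.2 d23
  constructor
  · intro h0
    rw [h0] at k1 k2 k3
    have f : ∀ x : ℂ, (x - e) * ((x - e) ^ 2 + a * (x - e) + 0) = 0 → x = e ∨ x = e - a := by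
      intro x hx
      have h5 : (x - e) ^ 2 * (x - (e - a)) = 0 := by linear_combination hx
      rcases mul_eq_zero.1 h5 with h6 | h6
      · exact Or.inl (sub_eq_zero.1 ((pow_eq_zero_iff two_ne_zero).1 h6))
      · exact Or.inr (sub_eq_zero.1 h6)
    rcases f _ k1 with f1 | f1 <;> rcases f _ k2 with f2 | f2 <;> rcases f _ k3 with f3 | f3 <;>
      first
        | exact d12 (f1.trans f2.symm)
        | exact d13 (f1.trans f3.symm)
        | exact d23 (f2.trans f3.symm)
  · intro h0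
    have hc' : c = a ^ 2 / 4 := by linear_combination (-1 / 4) * h0
    rw [hc'] at k1 k2 k3
    have f : ∀ x : ℂ, (x - e) * ((x - e) ^ 2 + a * (x - e) + a ^ 2 / 4) = 0 → x = e ∨ x = e - a / 2 := by
      intro x hx
      have h5 : (x - e) * (x - (e - a / 2)) ^ 2 = 0 := by linear_combination hx
      rcases mul_eq_zero.1 h5 with h6 | h6
      · exact Or.inl (sub_eq_zero.1 h6)
      · exact Or.inr (sub_eq_zero.1 ((pow_eq_zero_iff two_ne_zero).1 h6))
    rcases f _ k1 with f1 | f1 <;> rcases f _ k2 with f2 | f2 <;> rcases f _ k3 with f3 | f3 <;>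
      first
        | exact d12 (f1.trans f2.symm)
        | exact d13 (f1.trans f3.symm)
        | exact d23 (f2.trans f3.symm)

end H35LW
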