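import Mathlib
import Pool.Agent.Lib.H35LW.C6A
import Pool.Agent.Lib.H35LW.C6C

/-! # H35LW, C6D: the link near 0 -/

namespace H35LW

open Filter Topology H47E
open H35P (A5_z)

variable {L : PeriodPair} {e a c : ℂ}

/-- Algebra: the derivative of T = -x/y. -/
theorem wa_T {x y : ℂ} (hy : y ≠ 0) (hx : x ≠ 0) (h : y ^ 2 = x ^ 3 + a * x ^ 2 + c * x) :
    (-(2 * y) * y - (-x) * (3 * x ^ 2 + 2 * a * x + c)) / y ^ 2 = 1 - a * (-x / y) ^ 2 - 2 * c * (-x / y) ^ 2 * x⁻¹ := by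
  field_simp
  linear_combination (-3) * h

theorem wa_V {x y : ℂ} (hy : y ≠ 0) (hx : x ≠ 0) (h : y ^ 2 = x ^ 3 + a * x ^ 2 + c * x) :
    -(2 * y) / x ^ 2 = 2 * (-x / y) * (1 + a * x⁻¹ + c * x⁻¹ ^ 2) := by
  field_simp
  linear_combination (-1) * h

theorem wa_G {x y : ℂ} (hx : x ≠ 0) (h : y ^ 2 = x ^ 3 + a * x ^ 2 + c * x) :
    -x - ((-(3 * x ^ 2 + 2 * a * x + c)) * x - (-y) * (2 * y)) / x ^ 2 = -(c * x⁻¹) := by
  field_simp
  linear_combination (-2) * h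

/-- The functions T = - x / y, V = 1 / x, G = w - 1 / T near 0. -/
theorem wloc (e : ℂ) : ∃ T V G : ℂ → ℂ, AnalyticAt ℂ T 0 ∧ AnalyticAt ℂ V 0 ∧ AnalyticAt ℂ G 0 ∧ T 0 = 0 ∧ V 0 = 0 ∧ G 0 = 0 ∧
    ∀ᶠ z in 𝓝[≠] (0 : ℂ), (z ∉ L.lattice ∧ L.weierstrassP z - e ≠ 0 ∧ L.derivWeierstrassP z / 2 ≠ 0) ∧
      V z = (L.weierstrassP z - e)⁻¹ ∧ T z = -(L.weierstrassP z - e) / (L.derivWeierstrassP z / 2) ∧
      A5_z L z + e * z = (T z)⁻¹ + G z := by
  obtain ⟨u, hu, u0, hwp⟩ := H35P.wp_zero L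
  obtain ⟨q, hq, q0, hz⟩ := zeta_zero L
  set P : ℂ → ℂ := fun z => 1 + z ^ 2 * (u z - e) with hP
  set Q : ℂ → ℂ := fun z => 1 - z ^ 3 * deriv u z / 2 with hQ
  have hdu : AnalyticAt ℂ (deriv u) 0 := hu.deriv
  have aP : AnalyticAt ℂ P 0 := by fun_prop
  have aQ : AnalyticAt ℂ Q 0 := by fun_prop
  have P0 : P 0 ≠ 0 := by
    rw [hP]
    simp
  have Q0 : Q 0 ≠ 0 := by
    rw [hQ]
    simp
  refine ⟨fun z => z * P z / Q z, fun z => z ^ 2 / P z, fun z => q z + e * z + (z * (u z - e) + z ^ 2 * deriv u z / 2) / P z, ?_, ?_, ?_,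
    ?_, ?_, ?_, ?_⟩
  · exact (analyticAt_id.mul aP).div aQ Q0
  · exact (analyticAt_id.pow 2).div aP P0
  · have h1 : AnalyticAt ℂ (fun z => z * (u z - e) + z ^ 2 * deriv u z / 2) 0 := by fun_prop
    have h2 : AnalyticAt ℂ (fun z : ℂ => q z + e * z) 0 := by fun_prop
    exact h2.add (h1.div aP P0)
  · simp
  · simp
  · simp [q0]
  · filter_upwards [H35P.ev_compl L 0, self_mem_nhdsWithin, nhdsWithin_le_nhds (aP.continuousAt.eventually_ne P0),
      nhdsWithin_le_nhds (aQ.continuousAt.eventually_ne Q0), nhdsWithin_le_nhds hu.eventually_analyticAt] with z h1 h2 h3 h4 h5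
    have hz0 : z ≠ 0 := h2
    have ex : L.weierstrassP z - e = P z / z ^ 2 := by
      rw [hwp z hz0, hP]
      field_simp
      ring
    have dx : HasDerivAt L.weierstrassP (-(2 * z) / (z ^ 2) ^ 2 + deriv u z) z := by
      have d1 : HasDerivAt (fun z : ℂ => (z ^ 2)⁻¹ + u z) (-(2 * z) / (z ^ 2) ^ 2 + deriv u z) z := by
        have d2 : HasDerivAt (fun z : ℂ => z ^ 2) (2 * z) z := by
          simpa using hasDerivAt_pow 2 z
        exact (d2.inv (pow_ne_zero 2 hz0)).add h5.differentiableAt.hasDerivAt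
      refine d1.congr_of_eventuallyEq ?_
      filter_upwards [isOpen_ne.mem_nhds hz0] with w hw
      exact hwp w hw
    have ey : L.derivWeierstrassP z / 2 = -(Q z / z ^ 3) := by
      rw [(H35P.wp_hasDeriv L z h1).unique dx, hQ]
      field_simp
      ring
    refine ⟨⟨h1, ?_, ?_⟩, ?_, ?_, ?_⟩
    · rw [ex]
      exact div_ne_zero h3 (pow_ne_zero 2 hz0)
    · rw [ey]
      exact neg_ne_zero.2 (div_ne_zero h4 (pow_ne_zero 3 hz0))
    · show z ^ 2 / P z = _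
      rw [ex, inv_div]
    · show z * P z / Q z = _
      rw [ex, ey]
      field_simp
    · show _ = (z * P z / Q z)⁻¹ + (q z + e * z + (z * (u z - e) + z ^ 2 * deriv u z / 2) / P z)
      rw [hz z hz0]
      have h6 : (z * P z / Q z)⁻¹ + (z * (u z - e) + z ^ 2 * deriv u z / 2) / P z = z⁻¹ := by
        have h7 : P z = 1 + z ^ 2 * (u z - e) := rfl
        have h8 : Q z = 1 - z ^ 3 * deriv u z / 2 := rfl
        rw [inv_div]
        field_simp
        rw [h7, h8]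
        ring
      linear_combination (-1) * h6

/-- The differential equations near 0. -/
theorem wder (root : 4 * e ^ 3 - L.g₂ * e - L.g₃ = 0) (ha : a = 3 * e) (hc : c = 3 * e ^ 2 - L.g₂ / 4) {T V G : ℂ → ℂ}
    (h : ∀ᶠ z in 𝓝[≠] (0 : ℂ), (z ∉ L.lattice ∧ L.weierstrassP z - e ≠ 0 ∧ L.derivWeierstrassP z / 2 ≠ 0) ∧
      V z = (L.weierstrassP z - e)⁻¹ ∧ T z = -(L.weierstrassP z - e) / (L.derivWeierstrassP z / 2) ∧
      A5_z L z + e * z = (T z)⁻¹ + G z) :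
    ∀ᶠ z in 𝓝[≠] (0 : ℂ), HasDerivAt T (1 - a * T z ^ 2 - 2 * c * T z ^ 2 * V z) z ∧
      HasDerivAt V (2 * T z * (1 + a * V z + c * V z ^ 2)) z ∧ HasDerivAt G (-(c * V z)) z := by
  filter_upwards [eventually_eventually_nhdsWithin.2 h, h, self_mem_nhdsWithin] with z h1 h2 h3
  have hz0 : z ≠ 0 := h3
  rw [isOpen_compl_singleton.nhdsWithin_eq h3] at h1
  obtain ⟨⟨hz, hx, hy⟩, hV, hT, -⟩ := h2
  have cu := curve root ha hc hz
  have dx := x_deriv e hz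
  have dy := y_deriv ha hc hz
  have dw := w_deriv e hz
  have e1 : T =ᶠ[𝓝 z] fun z => -(L.weierstrassP z - e) / (L.derivWeierstrassP z / 2) := h1.mono fun w hw => hw.2.2.1
  have e2 : V =ᶠ[𝓝 z] fun z => (L.weierstrassP z - e)⁻¹ := h1.mono fun w hw => hw.2.1
  have e3 : G =ᶠ[𝓝 z] fun z => (A5_z L z + e * z) - (-(L.derivWeierstrassP z / 2)) / (L.weierstrassP z - e) := by
    filter_upwards [h1] with w hw
    obtain ⟨⟨-, hx', hy'⟩, -, hT', hw'⟩ := hw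
    rw [hw', hT', inv_div, div_neg, neg_div]
    ring
  refine ⟨?_, ?_, ?_⟩
  · refine ((dx.neg.div dy hy).congr_of_eventuallyEq e1).congr_deriv ?_
    rw [hT, hV]
    exact wa_T hy hx cu
  · refine ((dx.inv hx).congr_of_eventuallyEq e2).congr_deriv ?_
    rw [hT, hV]
    exact wa_V hy hx cu
  · refine ((dw.sub (dy.neg.div dx hx)).congr_of_eventuallyEq e3).congr_deriv ?_
    rw [hV]
    exact wa_G hx cu

end H35LW
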