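import Mathlib
import Pool.Agent.Lib.H35LW.C6D

/-! # H35LW, C6E: the link -/

namespace H35LW

open Filter Topology H47E PowerSeries
open H35P (A5_z)

variable {L : PeriodPair} {e a c : ℂ}

theorem d_U {k : Type} [Field k] {a c : k} (S : Ser k a c) : d⁄dX k S.U = S.Z := by
  unfold Ser.U Ser.Z
  rw [d_mul, S.ht, S.hrho]
  ring

/-- The link at the point z. -/
structure Lk (L : PeriodPair) (e : ℂ) (S : Ser ℂ a c) (z : ℂ) : Prop where
  X : val S.X z = val S.U z ^ 2 * (L.weierstrassP z - e)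
  Y : val S.Y z = val S.U z ^ 3 * (L.derivWeierstrassP z / 2)
  Z : val S.Z z = val S.U z * (A5_z L z + e * z)

theorem wa_X {x y r : ℂ} (hx : x ≠ 0) (hy : y ≠ 0) (h : y ^ 2 = x ^ 3 + a * x ^ 2 + c * x) :
    r ^ 2 * (1 - a * (-x / y) ^ 2 - c * (-x / y) ^ 2 * x⁻¹) = (r * (-x / y)) ^ 2 * x := by
  field_simp
  linear_combination r ^ 2 * h

theorem wa_Y {x y r : ℂ} (hx : x ≠ 0) (hy : y ≠ 0) (h : y ^ 2 = x ^ 3 + a * x ^ 2 + c * x) :
    -(r ^ 3 * (1 - a * (-x / y) ^ 2 - c * (-x / y) ^ 2 * x⁻¹)) = (r * (-x / y)) ^ 3 * y := by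
  field_simp
  linear_combination (-r ^ 3) * h

/-- The link near 0. -/
theorem near_link (root : 4 * e ^ 3 - L.g₂ * e - L.g₃ = 0) (ha : a = 3 * e) (hc : c = 3 * e ^ 2 - L.g₂ / 4) (S : Ser ℂ a c) :
    ∀ᶠ z in 𝓝[≠] (0 : ℂ), z ∉ L.lattice ∧ val S.U z ≠ 0 ∧ Lk L e S z := by
  obtain ⟨T, V, G, aT, aV, aG, T0, V0, G0, h⟩ := wloc (L := L) e
  have hd := wder root ha hc h
  obtain ⟨at', av, ag, ar⟩ := near_an S
  have hn := near_ev S
  have t0 : val S.t 0 = 0 := by rw [val_zero, S.t0]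
  have v0' : val S.v 0 = 0 := by rw [val_zero, v0]
  have g0 : val S.g 0 = 0 := by rw [val_zero, S.g0]
  have r0 : val S.rho 0 ≠ 0 := by rw [val_zero, S.rho0]; exact one_ne_zero
  obtain ⟨h1, h2⟩ := lin_unique (z₀ := 0) (f₁ := fun z => val S.t z - T z) (f₂ := fun z => val S.v z - V z)
    (A := fun z => -a * (val S.t z + T z) - 2 * c * (val S.t z + T z) * val S.v z) (B := fun z => -2 * c * T z ^ 2)
    (D := fun z => 2 * (1 + a * val S.v z + c * val S.v z ^ 2)) (E := fun z => 2 * T z * (a + c * (val S.v z + V z)))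
    (by fun_prop) (by fun_prop) (by fun_prop) (by fun_prop) (by fun_prop) (by fun_prop) (by show val S.t 0 - T 0 = 0; rw [t0, T0, sub_zero])
    (by show val S.v 0 - V 0 = 0; rw [v0', V0, sub_zero])
    (by
      filter_upwards [hd, nhdsWithin_le_nhds hn] with z z1 z2
      refine (z2.dt.sub z1.1).deriv.trans ?_
      ring)
    (by
      filter_upwards [hd, nhdsWithin_le_nhds hn] with z z1 z2
      refine (z2.dv.sub z1.2.1).deriv.trans ?_
      ring)
  have h3 := lin_unique1 (z₀ := 0) (f := fun z => val S.g z - G z) (A := fun _ => 0) (by fun_prop) analyticAt_const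
    (by show val S.g 0 - G 0 = 0; rw [g0, G0, sub_zero])
    (by
      filter_upwards [hd, nhdsWithin_le_nhds hn, nhdsWithin_le_nhds h2] with z z1 z2 z3
      refine (z2.dg.sub z1.2.2).deriv.trans ?_
      linear_combination (-c) * z3)
  filter_upwards [h, nhdsWithin_le_nhds hn, nhdsWithin_le_nhds h1, nhdsWithin_le_nhds h2, nhdsWithin_le_nhds h3,
    nhdsWithin_le_nhds (ar.continuousAt.eventually_ne r0)] with z z1 z2 z3 z4 z5 z6
  obtain ⟨⟨hz, hx, hy⟩, hV, hT, hw⟩ := z1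
  have cu := curve root ha hc hz
  have e1 : val S.t z = T z := sub_eq_zero.1 z3
  have e2 : val S.v z = V z := sub_eq_zero.1 z4
  have e3 : val S.g z = G z := sub_eq_zero.1 z5
  have hT0 : T z ≠ 0 := by
    rw [hT]
    exact div_ne_zero (neg_ne_zero.2 hx) hy
  refine ⟨hz, ?_, ?_, ?_, ?_⟩
  · rw [z2.U, e1]
    exact mul_ne_zero z6 hT0
  · rw [z2.X, z2.U, e1, e2, hV, hT]
    exact wa_X hx hy cu
  · rw [z2.Y, z2.U, e1, e2, hV, hT]
    exact wa_Y hx hy cu
  · rw [z2.Z, z2.U, e1, e3, hw]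
    field_simp

/-- The identity theorem on the complement of the lattice. -/
theorem ident {f g : ℂ → ℂ} (hf : ∀ z, z ∉ L.lattice → AnalyticAt ℂ f z) (hg : ∀ z, z ∉ L.lattice → AnalyticAt ℂ g z)
    (h : ∀ᶠ z in 𝓝[≠] (0 : ℂ), f z = g z) {z : ℂ} (hz : z ∉ L.lattice) : f z = g z := by
  have hpre : IsPreconnected ((L.lattice : Set ℂ)ᶜ) := by
    have hcount : (L.lattice : Set ℂ).Countable := countable_of_Lindelof_of_discrete (X := L.lattice)
    exact (hcount.isConnected_compl_of_one_lt_rank (by simp)).isPreconnected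
  obtain ⟨z₀, h1, h2, h3⟩ := ((eventually_eventually_nhdsWithin.2 h).and ((H35P.ev_compl L 0).and self_mem_nhdsWithin)).exists
  rw [isOpen_compl_singleton.nhdsWithin_eq h3] at h1
  exact AnalyticOnNhd.eqOn_of_preconnected_of_eventuallyEq (U := (L.lattice : Set ℂ)ᶜ) (fun w hw => hf w hw) (fun w hw => hg w hw) hpre
    h2 h1 hz

theorem an_x (e : ℂ) (z : ℂ) (hz : z ∉ L.lattice) : AnalyticAt ℂ (fun z => L.weierstrassP z - e) z :=
  (H35P.wp_analytic L z hz).sub analyticAt_const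

theorem an_y (z : ℂ) (hz : z ∉ L.lattice) : AnalyticAt ℂ (fun z => L.derivWeierstrassP z / 2) z :=
  (H35P.wpd_analytic L z hz).div_const

theorem an_w (e : ℂ) (z : ℂ) (hz : z ∉ L.lattice) : AnalyticAt ℂ (fun z => A5_z L z + e * z) z := by
  have h1 : DifferentiableOn ℂ (fun z => A5_z L z + e * z) {z : ℂ | z ∉ L.lattice} := fun w hw =>
    (w_deriv e hw).differentiableAt.differentiableWithinAt
  exact h1.analyticAt ((H35P.compl_open L).mem_nhds hz)

/-- The link. -/
theorem link (root : 4 * e ^ 3 - L.g₂ * e - L.g₃ = 0) (ha : a = 3 * e) (hc : c = 3 * e ^ 2 - L.g₂ / 4) (S : Ser ℂ a c) {z : ℂ}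
    (hz : z ∉ L.lattice) : val S.U z ≠ 0 ∧ Lk L e S z := by
  obtain ⟨gU, gX, gY, gZ⟩ := ag_main S
  have aU : ∀ z, AnalyticAt ℂ (val S.U) z := fun z => (val_differentiable gU).analyticAt z
  have aX : ∀ z, AnalyticAt ℂ (val S.X) z := fun z => (val_differentiable gX).analyticAt z
  have aY : ∀ z, AnalyticAt ℂ (val S.Y) z := fun z => (val_differentiable gY).analyticAt z
  have aZ : ∀ z, AnalyticAt ℂ (val S.Z) z := fun z => (val_differentiable gZ).analyticAt z
  have nl := near_link root ha hc S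
  have lX : ∀ z, z ∉ L.lattice → val S.X z = val S.U z ^ 2 * (L.weierstrassP z - e) := fun z hz =>
    ident (L := L) (f := val S.X) (g := fun z => val S.U z ^ 2 * (L.weierstrassP z - e)) (fun z _ => aX z)
      (fun z hz => ((aU z).pow 2).mul (an_x e z hz)) (nl.mono fun w hw => hw.2.2.X) hz
  have lY : ∀ z, z ∉ L.lattice → val S.Y z = val S.U z ^ 3 * (L.derivWeierstrassP z / 2) := fun z hz =>
    ident (L := L) (f := val S.Y) (g := fun z => val S.U z ^ 3 * (L.derivWeierstrassP z / 2)) (fun z _ => aY z)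
      (fun z hz => ((aU z).pow 3).mul (an_y z hz)) (nl.mono fun w hw => hw.2.2.Y) hz
  have lZ : ∀ z, z ∉ L.lattice → val S.Z z = val S.U z * (A5_z L z + e * z) := fun z hz =>
    ident (L := L) (f := val S.Z) (g := fun z => val S.U z * (A5_z L z + e * z)) (fun z _ => aZ z)
      (fun z hz => (aU z).mul (an_w e z hz)) (nl.mono fun w hw => hw.2.2.Z) hz
  refine ⟨fun h0 => ?_, ⟨lX z hz, lY z hz, lZ z hz⟩⟩
  have dU : ∀ w, deriv (val S.U) w = val S.Z w := by
    intro w
    have h1 := (AG.ent gU).hasDeriv w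
    rw [d_U] at h1
    exact h1.deriv
  have h1 := lin_unique1 (z₀ := z) (f := val S.U) (A := fun z => A5_z L z + e * z) (aU z) (an_w e z hz) h0
    (by
      filter_upwards [nhdsWithin_le_nhds ((H35P.compl_open L).mem_nhds hz)] with w hw
      rw [dU, lZ w hw]
      ring)
  have h2 : val S.U = fun _ => 0 := by
    have h3 : AnalyticOnNhd ℂ (val S.U) Set.univ := fun w _ => aU w
    have h4 : AnalyticOnNhd ℂ (fun _ : ℂ => (0 : ℂ)) Set.univ := fun w _ => analyticAt_const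
    exact h3.eq_of_eventuallyEq h4 h1
  obtain ⟨w, hw⟩ := nl.exists
  exact hw.2.1 (by rw [h2])

end H35LW
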